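import Mathlib

/-!
Soluble sets in Euclidean spaces (Euclidean Ramsey theory).
-/

namespace Pool.Agent.W_MP_955314_co

/-- `Y ⊂ ℝ^m` is a *soluble set*: `Y` is finite and some soluble group of isometries of `ℝ^m`,
all of whose elements map `Y` onto itself, acts transitively on `Y`. -/
def IsSolubleSet {m : ℕ} (Y : Set (EuclideanSpace ℝ (Fin m))) : Prop :=
  Y.Finite ∧
    ∃ H : Subgroup (EuclideanSpace ℝ (Fin m) ≃ᵢ EuclideanSpace ℝ (Fin m)),
      Group.IsSolvable ↥H ∧ (∀ h ∈ H, ⇑h '' Y = Y) ∧ ∀ y ∈ Y, ∀ z ∈ Y, ∃ h ∈ H, h y = z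

/-- `X ⊂ ℝ^n` *is contained in a soluble set*: some soluble set `Y ⊂ ℝ^m` contains the image of
`X` under an isometric embedding `ℝ^n → ℝ^m`. -/
def InSolubleSet {n : ℕ} (X : Set (EuclideanSpace ℝ (Fin n))) : Prop :=
  ∃ (m : ℕ) (Y : Set (EuclideanSpace ℝ (Fin m)))
    (f : EuclideanSpace ℝ (Fin n) → EuclideanSpace ℝ (Fin m)),
    IsSolubleSet Y ∧ Isometry f ∧ f '' X ⊆ Y

/-- The centroid of a finite set of points. -/
noncomputable def centroid {V : Type*} [AddCommGroup V] [Module ℝ V] (S : Finset V) : V :=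
  ((S.card : ℝ)⁻¹) • ∑ x ∈ S, x

end Pool.Agent.W_MP_955314_co
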