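import Mathlib
import Pool.Agent.W_MP_955314_co.Defs

/-!
Wreath products acting on `ℓ²` powers, and general facts on soluble sets in abstract Euclidean
spaces.
-/

namespace Pool.Agent.W_MP_955314_co


/-- A finite power of a solvable group is solvable. -/
theorem isSolvable_pi {J : Type*} {H : Type*} [Group H] [Group.IsSolvable H] :
    Group.IsSolvable (J → H) := by
  obtain ⟨n, hn⟩ := (Group.isSolvable_def H).1 inferInstance
  refine ⟨⟨n, le_bot_iff.mp ?_⟩⟩
  have key : ∀ k, derivedSeries (J → H) k ≤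
      Subgroup.pi Set.univ (fun _ : J => derivedSeries H k) := by
    intro k
    induction k with
    | zero => 
      intro x _
      rw [Subgroup.mem_pi]
      intro i _
      simp
    | succ k ih =>
      rw [derivedSeries_succ]
      refine (Subgroup.commutator_mono ih ih).trans ?_
      refine (Subgroup.commutator_pi_pi_le _ _).trans ?_
      simp only [derivedSeries_succ]
      exact le_rfl
  refine (key n).trans ?_
  intro x hx
  rw [Subgroup.mem_pi] at hx
  rw [Subgroup.mem_bot]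
  funext i
  have := hx i (Set.mem_univ _)
  rw [hn, Subgroup.mem_bot] at this
  simpa using this

section wreath

variable {E : Type*} [NormedAddCommGroup E] {J : Type*} [Fintype J]

/-- The isometry `x ↦ (h_j (x_{σ⁻¹ j}))_j`. -/
noncomputable def wr (h : J → (E ≃ᵢ E)) (σ : Equiv.Perm J) :
    PiLp 2 (fun _ : J => E) ≃ᵢ PiLp 2 (fun _ : J => E) where
  toFun x := WithLp.toLp 2 fun j => h j (x (σ⁻¹ j))
  invFun x := WithLp.toLp 2 fun j => (h (σ j)).symm (x (σ j))
  left_inv x := by
    ext j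
    simp
  right_inv x := by
    ext j
    simp
  isometry_toFun := by
    refine Isometry.of_dist_eq fun x y => ?_
    rw [PiLp.dist_eq_of_L2, PiLp.dist_eq_of_L2]
    congr 1
    simp only [IsometryEquiv.dist_eq]
    exact Equiv.sum_comp (σ⁻¹ : Equiv.Perm J) fun j => dist (x j) (y j) ^ 2

@[simp] theorem wr_apply (h : J → (E ≃ᵢ E)) (σ : Equiv.Perm J) (x : PiLp 2 (fun _ : J => E))
    (j : J) : (wr h σ x) j = h j (x (σ⁻¹ j)) := rfl

/-- The homomorphism from the abstract wreath product. -/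
noncomputable def wrHom (H : Subgroup (E ≃ᵢ E)) (Q : Subgroup (Equiv.Perm J)) :
    ((J → H) ⋊[mulAutArrow] Q) →* (PiLp 2 (fun _ : J => E) ≃ᵢ PiLp 2 (fun _ : J => E)) where
  toFun a := wr (fun j => (a.left j : E ≃ᵢ E)) (a.right : Equiv.Perm J)
  map_one' := by
    apply IsometryEquiv.ext
    intro x
    ext j
    simp only [wr_apply, SemidirectProduct.one_left, SemidirectProduct.one_right, Pi.one_apply,
      Subgroup.coe_one, inv_one]
    rfl
  map_mul' a b := by
    apply IsometryEquiv.ext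
    intro x
    ext j
    simp only [wr_apply, SemidirectProduct.mul_left, SemidirectProduct.mul_right,
      IsometryEquiv.mul_apply, Pi.mul_apply, Subgroup.coe_mul, mul_inv_rev]
    rfl

/-- The wreath product of `H` and `Q`, acting on the `ℓ²` power. -/
noncomputable def wreath (H : Subgroup (E ≃ᵢ E)) (Q : Subgroup (Equiv.Perm J)) :
    Subgroup (PiLp 2 (fun _ : J => E) ≃ᵢ PiLp 2 (fun _ : J => E)) :=
  (wrHom H Q).range

theorem wr_mem {H : Subgroup (E ≃ᵢ E)} {Q : Subgroup (Equiv.Perm J)} {h : J → (E ≃ᵢ E)}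
    (hh : ∀ j, h j ∈ H) {σ : Equiv.Perm J} (hσ : σ ∈ Q) : wr h σ ∈ wreath H Q :=
  ⟨⟨fun j => ⟨h j, hh j⟩, ⟨σ, hσ⟩⟩, rfl⟩

theorem mem_wreath {H : Subgroup (E ≃ᵢ E)} {Q : Subgroup (Equiv.Perm J)}
    {g : PiLp 2 (fun _ : J => E) ≃ᵢ PiLp 2 (fun _ : J => E)} (hg : g ∈ wreath H Q) :
    ∃ h : J → (E ≃ᵢ E), (∀ j, h j ∈ H) ∧ ∃ σ ∈ Q, g = wr h σ := by
  obtain ⟨a, rfl⟩ := hg
  exact ⟨fun j => (a.left j : E ≃ᵢ E), fun j => (a.left j).2, a.right, a.right.2, rfl⟩

theorem isSolvable_wreath (H : Subgroup (E ≃ᵢ E)) (Q : Subgroup (Equiv.Perm J))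
    [Group.IsSolvable H] [Group.IsSolvable Q] : Group.IsSolvable (wreath H Q) := by
  haveI : Group.IsSolvable (J → H) := isSolvable_pi
  haveI : Group.IsSolvable ((J → H) ⋊[mulAutArrow] Q) :=
    Group.isSolvable_of_ker_le_range (SemidirectProduct.inl : (J → H) →* (J → H) ⋊[mulAutArrow] Q)
      SemidirectProduct.rightHom (by rw [SemidirectProduct.range_inl_eq_ker_rightHom])
  exact Group.isSolvable_of_surjective (wrHom H Q).rangeRestrict_surjective

end wreath

end Pool.Agent.W_MP_955314_co
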