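import Mathlib
import Pool.Agent.W_MP_955314_co.Wreath

/-!
Transfer from an abstract Euclidean space (and a similarity instead of an isometric embedding)
to `EuclideanSpace ℝ (Fin m)`.
-/

namespace Pool.Agent.W_MP_955314_co

section

variable {W W' : Type*} [NormedAddCommGroup W] [InnerProductSpace ℝ W]
  [NormedAddCommGroup W'] [InnerProductSpace ℝ W']

/-- Conjugation of isometries by the similarity `w ↦ r⁻¹ • e w`. -/
noncomputable def conjSim (e : W ≃ₗᵢ[ℝ] W') (r : ℝ) (hr : 0 < r) : (W ≃ᵢ W) →* (W' ≃ᵢ W') where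
  toFun g :=
    { toFun := fun x => r⁻¹ • e (g (e.symm (r • x)))
      invFun := fun x => r⁻¹ • e (g.symm (e.symm (r • x)))
      left_inv := fun x => by
        dsimp only
        rw [smul_smul, mul_inv_cancel₀ hr.ne', one_smul, LinearIsometryEquiv.symm_apply_apply,
          IsometryEquiv.symm_apply_apply, LinearIsometryEquiv.apply_symm_apply, smul_smul,
          inv_mul_cancel₀ hr.ne', one_smul]
      right_inv := fun x => by
        dsimp only
        rw [smul_smul, mul_inv_cancel₀ hr.ne', one_smul, LinearIsometryEquiv.symm_apply_apply,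
          IsometryEquiv.apply_symm_apply, LinearIsometryEquiv.apply_symm_apply, smul_smul,
          inv_mul_cancel₀ hr.ne', one_smul]
      isometry_toFun := by
        refine Isometry.of_dist_eq fun x y => ?_
        rw [dist_smul₀, LinearIsometryEquiv.dist_map, IsometryEquiv.dist_eq,
          LinearIsometryEquiv.dist_map, dist_smul₀, norm_inv, ← mul_assoc,
          inv_mul_cancel₀ (norm_ne_zero_iff.2 hr.ne'), one_mul] }
  map_one' := by
    apply IsometryEquiv.ext
    intro x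
    change r⁻¹ • e (e.symm (r • x)) = x
    rw [LinearIsometryEquiv.apply_symm_apply, smul_smul, inv_mul_cancel₀ hr.ne', one_smul]
  map_mul' g g' := by
    apply IsometryEquiv.ext
    intro x
    change r⁻¹ • e (g (g' (e.symm (r • x)))) =
      r⁻¹ • e (g (e.symm (r • (r⁻¹ • e (g' (e.symm (r • x)))))))
    rw [smul_smul, mul_inv_cancel₀ hr.ne', one_smul, LinearIsometryEquiv.symm_apply_apply]

theorem conjSim_apply (e : W ≃ₗᵢ[ℝ] W') (r : ℝ) (hr : 0 < r) (g : W ≃ᵢ W) (w : W) :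
    conjSim e r hr g (r⁻¹ • e w) = r⁻¹ • e (g w) := by
  change r⁻¹ • e (g (e.symm (r • (r⁻¹ • e w)))) = _
  rw [smul_smul, mul_inv_cancel₀ hr.ne', one_smul, LinearIsometryEquiv.symm_apply_apply]

end

/-- Main transfer statement. -/
theorem inSolubleSet_of_abstract {n : ℕ} {X : Set (EuclideanSpace ℝ (Fin n))}
    {W : Type*} [NormedAddCommGroup W] [InnerProductSpace ℝ W] [FiniteDimensional ℝ W]
    (H : Subgroup (W ≃ᵢ W)) (hH : Group.IsSolvable H) (Y : Set W) (hY : Y.Finite)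
    (hinv : ∀ h ∈ H, ∀ y ∈ Y, h y ∈ Y) (htr : ∀ y ∈ Y, ∀ z ∈ Y, ∃ h ∈ H, h y = z)
    (r : ℝ) (hr : 0 < r) (f : EuclideanSpace ℝ (Fin n) → W)
    (hf : ∀ x y, dist (f x) (f y) = r * dist x y) (hfX : ∀ x ∈ X, f x ∈ Y) :
    InSolubleSet X := by
  classical
  set m := Module.finrank ℝ W
  set e : W ≃ₗᵢ[ℝ] EuclideanSpace ℝ (Fin m) := (stdOrthonormalBasis ℝ W).repr with he
  set s : W → EuclideanSpace ℝ (Fin m) := fun w => r⁻¹ • e w with hs
  refine ⟨m, s '' Y, fun x => s (f x), ⟨hY.image s, H.map (conjSim e r hr), ?_, ?_, ?_⟩, ?_, ?_⟩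
  · exact Group.isSolvable_of_surjective ((conjSim e r hr).subgroupMap_surjective H)
  · intro h hh
    obtain ⟨g, hg, rfl⟩ := hh
    have key : ∀ g' ∈ H, ∀ y ∈ Y, conjSim e r hr g' (s y) ∈ s '' Y := by
      intro g' hg' y hy
      refine ⟨g' y, hinv g' hg' y hy, ?_⟩
      rw [hs]
      exact (conjSim_apply e r hr g' y).symm
    apply Set.Subset.antisymm
    · rintro _ ⟨_, ⟨y, hy, rfl⟩, rfl⟩
      exact key g hg y hy
    · rintro _ ⟨y, hy, rfl⟩
      refine ⟨conjSim e r hr g⁻¹ (s y), key _ (H.inv_mem hg) y hy, ?_⟩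
      rw [map_inv]
      exact IsometryEquiv.apply_inv_self _ _
  · rintro _ ⟨y, hy, rfl⟩ _ ⟨z, hz, rfl⟩
    obtain ⟨h, hh, hyz⟩ := htr y hy z hz
    refine ⟨conjSim e r hr h, ⟨h, hh, rfl⟩, ?_⟩
    rw [hs]
    simp only
    rw [conjSim_apply, hyz]
  · refine Isometry.of_dist_eq fun x y => ?_
    rw [hs]
    simp only
    rw [dist_smul₀, LinearIsometryEquiv.dist_map, hf, norm_inv, Real.norm_of_nonneg hr.le,
      ← mul_assoc, inv_mul_cancel₀ hr.ne', one_mul]
  · rintro _ ⟨x, hx, rfl⟩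
    exact ⟨f x, hfX x hx, rfl⟩

end Pool.Agent.W_MP_955314_co
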