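import Mathlib
import Pool.Agent.W_MP_955314_co.Transfer

/-!
The pattern theorem: a set whose points have coordinates of prescribed types, the type patterns
lying in one orbit of a soluble permutation group, is contained in a soluble set.
-/

namespace Pool.Agent.W_MP_955314_co

theorem pattern {n : ℕ} {X : Set (EuclideanSpace ℝ (Fin n))}
    {W : Type*} [NormedAddCommGroup W] [InnerProductSpace ℝ W] [FiniteDimensional ℝ W]
    {J : Type*} [Fintype J] {K : Type*}
    (H : Subgroup (W ≃ᵢ W)) (hH : Group.IsSolvable H)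
    (Q : Subgroup (Equiv.Perm J)) (hQ : Group.IsSolvable Q)
    (O : K → Set W) (hfin : ∀ k, (O k).Finite)
    (hO : ∀ k, ∀ h ∈ H, ∀ a ∈ O k, h a ∈ O k)
    (htr : ∀ k, ∀ a ∈ O k, ∀ b ∈ O k, ∃ h ∈ H, h a = b)
    (t : J → K) (f : J → EuclideanSpace ℝ (Fin n) → W) (r : ℝ) (hr : 0 < r)
    (hdist : ∀ x y, ∑ j, dist (f j x) (f j y) ^ 2 = r ^ 2 * dist x y ^ 2)
    (hX : ∀ x ∈ X, ∃ σ ∈ Q, ∀ j, f j x ∈ O (t (σ⁻¹ j))) :
    InSolubleSet X := by
  classical
  set Y : Set (PiLp 2 (fun _ : J => W)) := {z | ∃ σ ∈ Q, ∀ j, z j ∈ O (t (σ⁻¹ j))} with hYdef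
  have hYfin : Y.Finite := by
    have h1 : ({z : J → W | ∀ j, z j ∈ ⋃ j', O (t j')}).Finite :=
      Set.Finite.pi' fun j => Set.finite_iUnion fun j' => hfin _
    refine (h1.preimage (f := fun z : PiLp 2 (fun _ : J => W) => (z : J → W)) ?_).subset ?_
    · intro z _ z' _ h
      ext j
      exact congrFun h j
    · rintro z ⟨σ, _, hz⟩
      intro j
      exact Set.mem_iUnion.2 ⟨σ⁻¹ j, hz j⟩
  have := isSolvable_wreath H Q
  refine inSolubleSet_of_abstract (wreath H Q) this Y hYfin ?_ ?_ r hr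
    (fun x => WithLp.toLp 2 fun j => f j x) ?_ ?_
  · intro g hg y hy
    obtain ⟨h, hh, τ, hτ, rfl⟩ := mem_wreath hg
    obtain ⟨σ, hσ, hy⟩ := hy
    refine ⟨τ * σ, Q.mul_mem hτ hσ, fun j => ?_⟩
    rw [wr_apply, mul_inv_rev]
    exact hO _ _ (hh j) _ (hy (τ⁻¹ j))
  · rintro y ⟨σ, hσ, hy⟩ z ⟨σ', hσ', hz⟩
    have key : ∀ j, ∃ h ∈ H, h (y ((σ' * σ⁻¹)⁻¹ j)) = z j := by
      intro j
      refine htr _ _ ?_ _ (hz j)
      have := hy ((σ' * σ⁻¹)⁻¹ j)
      rwa [mul_inv_rev, inv_inv, ← Equiv.Perm.mul_apply, inv_mul_cancel_left] at this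
    choose h hh hhz using key
    refine ⟨wr h (σ' * σ⁻¹), wr_mem hh (Q.mul_mem hσ' (Q.inv_mem hσ)), ?_⟩
    ext j
    rw [wr_apply, hhz]
  · intro x y
    rw [PiLp.dist_eq_of_L2]
    simp only
    rw [hdist, Real.sqrt_mul (by positivity), Real.sqrt_sq hr.le, Real.sqrt_sq dist_nonneg]
  · intro x hx
    exact hX x hx

/-- The empty set is contained in a soluble set. -/
theorem inSolubleSet_empty {n : ℕ} : InSolubleSet (∅ : Set (EuclideanSpace ℝ (Fin n))) := by
  refine ⟨n, ∅, id, ⟨Set.finite_empty, ⊥, inferInstance, ?_, ?_⟩, isometry_id, ?_⟩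
  · intro h _; simp
  · simp
  · simp

/-- The affine group of a field. -/
def affSubgroup (F : Type*) [Field F] : Subgroup (Equiv.Perm F) where
  carrier := {σ | ∀ x y, σ x - σ y = (σ 1 - σ 0) * (x - y)}
  mul_mem' := by
    intro σ τ hσ hτ x y
    simp only [Equiv.Perm.mul_apply]
    rw [hσ (τ x) (τ y), hσ (τ 1) (τ 0), hτ x y]
    ring
  one_mem' := by
    intro x y
    simp
  inv_mem' := by
    intro σ hσ x y
    have h1 : (σ 1 - σ 0) ≠ 0 := by
      rw [sub_ne_zero]
      intro h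
      exact one_ne_zero (σ.injective h)
    have h2 : ∀ u v, σ⁻¹ u - σ⁻¹ v = (σ 1 - σ 0)⁻¹ * (u - v) := by
      intro u v
      have := hσ (σ⁻¹ u) (σ⁻¹ v)
      have e1 : ∀ w, σ (σ⁻¹ w) = w := fun w => σ.apply_symm_apply w
      rw [e1, e1] at this
      rw [this, inv_mul_cancel_left₀ h1]
    rw [h2 x y, h2 1 0]
    ring

theorem affSubgroup_ne {F : Type*} [Field F] (σ : Equiv.Perm F) : σ 1 - σ 0 ≠ 0 := by
  rw [sub_ne_zero]
  intro h
  exact one_ne_zero (σ.injective h)

/-- The ratio homomorphism. -/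
def affRatio (F : Type*) [Field F] : affSubgroup F →* Fˣ where
  toFun σ := Units.mk0 ((σ : Equiv.Perm F) 1 - (σ : Equiv.Perm F) 0) (affSubgroup_ne _)
  map_one' := by
    ext
    simp
  map_mul' σ τ := by
    ext
    simp only [Subgroup.coe_mul, Equiv.Perm.mul_apply, Units.val_mk0, Units.val_mul]
    exact σ.2 _ _

theorem isSolvable_aff (F : Type*) [Field F] : Group.IsSolvable (affSubgroup F) := by
  have hker : Group.IsSolvable (affRatio F).ker := by
    apply Group.isSolvable_of_comm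
    intro a b
    have ha : ∀ x, (a : Equiv.Perm F) x = x + (a : Equiv.Perm F) 0 := by
      intro x
      have h1 := (a : affSubgroup F).2 x 0
      have h2 : affRatio F a = 1 := a.2
      have h3 := congrArg (fun u : Fˣ => (u : F)) h2
      simp only [affRatio, MonoidHom.coe_mk, OneHom.coe_mk, Units.val_mk0, Units.val_one] at h3
      have h1' : (a : Equiv.Perm F) x - (a : Equiv.Perm F) 0 =
        ((a : Equiv.Perm F) 1 - (a : Equiv.Perm F) 0) * (x - 0) := h1
      rw [h3, one_mul, sub_zero, sub_eq_iff_eq_add] at h1'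
      exact h1'
    have hb : ∀ x, (b : Equiv.Perm F) x = x + (b : Equiv.Perm F) 0 := by
      intro x
      have h1 := (b : affSubgroup F).2 x 0
      have h2 : affRatio F b = 1 := b.2
      have h3 := congrArg (fun u : Fˣ => (u : F)) h2
      simp only [affRatio, MonoidHom.coe_mk, OneHom.coe_mk, Units.val_mk0, Units.val_one] at h3
      have h1' : (b : Equiv.Perm F) x - (b : Equiv.Perm F) 0 =
        ((b : Equiv.Perm F) 1 - (b : Equiv.Perm F) 0) * (x - 0) := h1
      rw [h3, one_mul, sub_zero, sub_eq_iff_eq_add] at h1'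
      exact h1'
    ext x
    change (a : Equiv.Perm F) ((b : Equiv.Perm F) x) = (b : Equiv.Perm F) ((a : Equiv.Perm F) x)
    rw [ha ((b : Equiv.Perm F) x), hb x, hb ((a : Equiv.Perm F) x), ha x]
    ring
  exact Group.isSolvable_of_ker_le_range (affRatio F).ker.subtype (affRatio F) (by simp)

/-- Any two pairs of distinct points are equivalent under the affine group. -/
theorem exists_aff {F : Type*} [Field F] (u v : F) (huv : u ≠ v) :
    ∃ σ ∈ affSubgroup F, σ⁻¹ u = 0 ∧ σ⁻¹ v = 1 := by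
  have h : v - u ≠ 0 := sub_ne_zero.2 huv.symm
  refine ⟨⟨fun x => (v - u) * x + u, fun x => (v - u)⁻¹ * (x - u), fun x => ?_, fun x => ?_⟩,
    ?_, ?_, ?_⟩
  · simp only
    rw [add_sub_cancel_right, inv_mul_cancel_left₀ h]
  · simp only
    rw [mul_inv_cancel_left₀ h, sub_add_cancel]
  · intro x y
    simp only [Equiv.coe_fn_mk]
    ring
  · change (v - u)⁻¹ * (u - u) = 0
    simp
  · change (v - u)⁻¹ * (v - u) = 1
    exact inv_mul_cancel₀ h

end Pool.Agent.W_MP_955314_co
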