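import Mathlib
import Pool.Agent.W_MP_955314_co.Pattern

/-!
If every point of `X` is moved into the orbit `A` by exactly `c ∈ {1, 2}` members of a finite
family of symmetries of `X`, then `X` is contained in a soluble set.
-/

namespace Pool.Agent.W_MP_955314_co

theorem tTrick {n : ℕ} (X A B : Set (EuclideanSpace ℝ (Fin n))) (hX : X.Finite)
    (hAX : A ⊆ X) (hBX : B ⊆ X) (hXAB : X ⊆ A ∪ B)
    (G : Subgroup (EuclideanSpace ℝ (Fin n) ≃ᵢ EuclideanSpace ℝ (Fin n)))
    (hG : Group.IsSolvable G)
    (hA : ∀ g ∈ G, ∀ a ∈ A, g a ∈ A) (hB : ∀ g ∈ G, ∀ a ∈ B, g a ∈ B)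
    (htA : ∀ a ∈ A, ∀ b ∈ A, ∃ g ∈ G, g a = b) (htB : ∀ a ∈ B, ∀ b ∈ B, ∃ g ∈ G, g a = b)
    {I : Type*} [Fintype I] (γ : I → EuclideanSpace ℝ (Fin n) → EuclideanSpace ℝ (Fin n))
    (hγ : ∀ i, Isometry (γ i)) (hγX : ∀ i, ∀ x ∈ X, γ i x ∈ X)
    (c : ℕ) (hc : c = 1 ∨ c = 2) (hcount : ∀ x ∈ X, {i | γ i x ∈ A}.ncard = c) :
    InSolubleSet X := by
  classical
  rcases X.eq_empty_or_nonempty with rfl | ⟨x₀, hx₀⟩
  · exact inSolubleSet_empty
  have hAfin := hX.subset hAX
  have hBfin := hX.subset hBX
  rcases B.eq_empty_or_nonempty with rfl | ⟨b₀, hb₀⟩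
  · -- `X = A`
    have hXA : X = A := Set.Subset.antisymm (by simpa using hXAB) hAX
    refine inSolubleSet_of_abstract G hG A hAfin hA htA 1 one_pos id (by simp) ?_
    intro x hx
    rw [hXA] at hx
    exact hx
  · have hI : Nonempty I := by
      by_contra hI
      rw [not_nonempty_iff] at hI
      have := hcount x₀ hx₀
      have h0 : {i : I | γ i x₀ ∈ A} = ∅ := Set.eq_empty_of_isEmpty _
      rw [h0, Set.ncard_empty] at this
      omega
    obtain ⟨p, hpI, hp⟩ := Nat.exists_infinite_primes (Fintype.card I)
    haveI : Fact p.Prime := ⟨hp⟩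
    have hcard : Fintype.card I ≤ Fintype.card (ZMod p) := by rwa [ZMod.card]
    obtain ⟨ι⟩ := Function.Embedding.nonempty_of_card_le hcard
    set f : ZMod p → EuclideanSpace ℝ (Fin n) → EuclideanSpace ℝ (Fin n) := fun j x =>
      if h : ∃ i, ι i = j then γ h.choose x else b₀ with hf
    have hfι : ∀ i x, f (ι i) x = γ i x := by
      intro i x
      have h : ∃ i', ι i' = ι i := ⟨i, rfl⟩
      have h2 : h.choose = i := ι.injective h.choose_spec
      simp only [hf, dif_pos h, h2]
    have hfn : ∀ j, (¬ ∃ i, ι i = j) → ∀ x, f j x = b₀ := by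
      intro j hj x
      simp only [hf, dif_neg hj]
    -- types
    set T : Finset (ZMod p) := if c = 1 then {0} else {0, 1} with hT
    set O : Bool → Set (EuclideanSpace ℝ (Fin n)) := fun k => if k then A else B with hO
    refine pattern (J := ZMod p) (K := Bool) G hG (affSubgroup (ZMod p)) (isSolvable_aff _) O
      ?_ ?_ ?_ (fun j => decide (j ∈ T)) f (Real.sqrt (Fintype.card I)) ?_ ?_ ?_
    · intro k
      cases k <;> simp [hO, hAfin, hBfin]
    · intro k
      cases k
      · simpa [hO] using hB
      · simpa [hO] using hA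
    · intro k
      cases k
      · simpa [hO] using htB
      · simpa [hO] using htA
    · exact Real.sqrt_pos.2 (by exact_mod_cast Fintype.card_pos)
    · intro x y
      rw [Real.sq_sqrt (by positivity)]
      have h1 : ∀ j ∉ Finset.univ.map ι, dist (f j x) (f j y) ^ 2 = 0 := by
        intro j hj
        have hj' : ¬ ∃ i, ι i = j := by
          rintro ⟨i, rfl⟩
          exact hj (Finset.mem_map_of_mem _ (Finset.mem_univ _))
        rw [hfn j hj', hfn j hj', dist_self]
        norm_num
      rw [← Finset.sum_subset (Finset.subset_univ (Finset.univ.map ι))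
        (fun j _ hj => h1 j hj), Finset.sum_map]
      simp only [hfι, (hγ _).dist_eq]
      rw [Finset.sum_const, nsmul_eq_mul, Finset.card_univ]
    · intro x hx
      have hcx := hcount x hx
      -- key: a permutation with the prescribed pattern
      have key : ∃ σ ∈ affSubgroup (ZMod p), ∀ i, (σ⁻¹ (ι i) ∈ T ↔ γ i x ∈ A) ∧
          ∀ j, σ⁻¹ j ∈ T → ∃ i, ι i = j := by
        rcases hc with rfl | rfl
        · rw [Set.ncard_eq_one] at hcx
          obtain ⟨i₀, hi₀⟩ := hcx
          obtain ⟨σ, hσ, hσ0, -⟩ := exists_aff (ι i₀) (ι i₀ + 1) (by simp)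
          refine ⟨σ, hσ, fun i => ⟨?_, ?_⟩⟩
          · have : γ i x ∈ A ↔ i = i₀ := by
              have : i ∈ {i | γ i x ∈ A} ↔ i ∈ ({i₀} : Set I) := by rw [hi₀]
              simpa using this
            rw [this]
            simp only [hT, if_true, Finset.mem_singleton]
            rw [← hσ0]
            constructor
            · intro h
              exact ι.injective (σ⁻¹.injective h)
            · rintro rfl; rfl
          · intro j hj
            simp only [hT, if_true, Finset.mem_singleton] at hj
            rw [← hσ0] at hj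
            exact ⟨i₀, (σ⁻¹.injective hj).symm⟩
        · rw [Set.ncard_eq_two] at hcx
          obtain ⟨i₀, i₁, hne, hi₀⟩ := hcx
          obtain ⟨σ, hσ, hσ0, hσ1⟩ := exists_aff (ι i₀) (ι i₁) (fun h => hne (ι.injective h))
          refine ⟨σ, hσ, fun i => ⟨?_, ?_⟩⟩
          · have : γ i x ∈ A ↔ i = i₀ ∨ i = i₁ := by
              have : i ∈ {i | γ i x ∈ A} ↔ i ∈ ({i₀, i₁} : Set I) := by rw [hi₀]
              simpa using this
            rw [this]
            have hT' : T = {0, 1} := by simp [hT]
            rw [hT', Finset.mem_insert, Finset.mem_singleton]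
            rw [← hσ0, ← hσ1]
            constructor
            · rintro (h | h)
              · exact Or.inl (ι.injective (σ⁻¹.injective h))
              · exact Or.inr (ι.injective (σ⁻¹.injective h))
            · rintro (rfl | rfl)
              · exact Or.inl rfl
              · exact Or.inr rfl
          · intro j hj
            have hT' : T = {0, 1} := by simp [hT]
            rw [hT', Finset.mem_insert, Finset.mem_singleton] at hj
            rw [← hσ0, ← hσ1] at hj
            rcases hj with hj | hj
            · exact ⟨i₀, (σ⁻¹.injective hj).symm⟩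
            · exact ⟨i₁, (σ⁻¹.injective hj).symm⟩
      obtain ⟨σ, hσ, hkey⟩ := key
      refine ⟨σ, hσ, fun j => ?_⟩
      by_cases hj : σ⁻¹ j ∈ T
      · obtain ⟨i, rfl⟩ := (hkey (Classical.arbitrary I)).2 j hj
        have := (hkey i).1.1 hj
        simp only [hO, hj, decide_true, if_true, hfι]
        exact this
      · simp only [hO, hj, decide_false]
        by_cases hj' : ∃ i, ι i = j
        · obtain ⟨i, rfl⟩ := hj'
          rw [hfι]
          have h1 : γ i x ∉ A := fun h => hj ((hkey i).1.2 h)
          rcases hXAB (hγX i x hx) with h2 | h2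
          · exact absurd h2 h1
          · simpa using h2
        · rw [hfn j hj']
          simpa using hb₀

end Pool.Agent.W_MP_955314_co
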