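import Mathlib
import Pool.Agent.W_MP_955314_co.Transfer

/-!
Merging two orbits which are separated by an invariant affine functional.
-/

namespace Pool.Agent.W_MP_955314_co

open scoped InnerProductSpace

section

variable {V : Type*} [NormedAddCommGroup V] [InnerProductSpace ℝ V]

theorem isom_add (g : V ≃ᵢ V) (x w : V) :
    g (x + w) = g x + g.toRealLinearIsometryEquiv w := by
  have h1 := IsometryEquiv.toRealLinearIsometryEquiv_apply g (x + w)
  have h2 := IsometryEquiv.toRealLinearIsometryEquiv_apply g x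
  rw [map_add, h2] at h1
  have : g (x + w) = g x - g 0 + g.toRealLinearIsometryEquiv w + g 0 := by
    rw [h1]; abel
  rw [this]; abel

theorem isom_lineMap (g : V ≃ᵢ V) (x y : V) (r : ℝ) :
    g (x + r • (y - x)) = g x + r • (g y - g x) := by
  rw [isom_add, map_smul, map_sub]
  simp only [IsometryEquiv.toRealLinearIsometryEquiv_apply]
  congr 2
  abel

/-- An isometry which preserves the functional `⟪σ, ·⟫` up to a constant commutes with the
direction `σ`. -/
theorem isom_fix (g : V ≃ᵢ V) (σ : V) (h : ∀ y, ⟪σ, g y⟫_ℝ = ⟪σ, y⟫_ℝ) (x : V) (r : ℝ) :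
    g (x + r • σ) = g x + r • σ := by
  rw [isom_add, map_smul]
  have h1 : ⟪σ, g.toRealLinearIsometryEquiv σ⟫_ℝ = ⟪σ, σ⟫_ℝ := by
    rw [IsometryEquiv.toRealLinearIsometryEquiv_apply, inner_sub_right, h, h]
    simp
  have h2 : ‖g.toRealLinearIsometryEquiv σ - σ‖ ^ 2 = 0 := by
    rw [@norm_sub_sq_real, LinearIsometryEquiv.norm_map, real_inner_comm, h1,
      real_inner_self_eq_norm_sq]
    ring
  have h3 : g.toRealLinearIsometryEquiv σ = σ := by
    rw [← sub_eq_zero, ← norm_eq_zero]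
    exact pow_eq_zero_iff (two_ne_zero) |>.1 h2
  rw [h3]

/-- The orbit of `x` is finite. -/
def FinOrb (G : Subgroup (V ≃ᵢ V)) (x : V) : Prop :=
  {y | ∃ g ∈ G, g x = y}.Finite

theorem FinOrb.lineMap {G : Subgroup (V ≃ᵢ V)} {x y : V} (hx : FinOrb G x) (hy : FinOrb G y)
    (r : ℝ) : FinOrb G (x + r • (y - x)) := by
  refine ((hx.prod hy).image (fun p : V × V => p.1 + r • (p.2 - p.1))).subset ?_
  rintro _ ⟨g, hg, rfl⟩
  exact ⟨(g x, g y), ⟨⟨g, hg, rfl⟩, ⟨g, hg, rfl⟩⟩, (isom_lineMap g x y r).symm⟩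

omit [InnerProductSpace ℝ V] in
theorem FinOrb.map {G : Subgroup (V ≃ᵢ V)} {x : V} (hx : FinOrb G x) (T : V → V)
    (hT : ∀ g ∈ G, g (T x) = T (g x)) : FinOrb G (T x) := by
  refine (hx.image T).subset ?_
  rintro _ ⟨g, hg, rfl⟩
  exact ⟨g x, ⟨g, hg, rfl⟩, (hT g hg).symm⟩

omit [InnerProductSpace ℝ V] in
theorem FinOrb.wreath {J : Type*} [Fintype J] {G : Subgroup (V ≃ᵢ V)}
    (Q : Subgroup (Equiv.Perm J)) {x : PiLp 2 (fun _ : J => V)} (hx : ∀ j, FinOrb G (x j)) :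
    FinOrb (wreath G Q) x := by
  have h1 : ({z : J → V | ∀ j, z j ∈ ⋃ j', {y | ∃ g ∈ G, g (x j') = y}}).Finite :=
    Set.Finite.pi' fun j => Set.finite_iUnion fun j' => hx j'
  refine (h1.preimage (f := fun z : PiLp 2 (fun _ : J => V) => (z : J → V)) ?_).subset ?_
  · intro z _ z' _ h
    ext j
    exact congrFun h j
  · rintro _ ⟨g, hg, rfl⟩
    obtain ⟨h, hh, ρ, _, rfl⟩ := mem_wreath hg
    intro j
    exact Set.mem_iUnion.2 ⟨ρ⁻¹ j, h j, hh j, (wr_apply h ρ x j).symm⟩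

end

/-- The induction step: `k + 2` orbits are merged into `k + 1` orbits. -/
theorem merge {V : Type*} [NormedAddCommGroup V] [InnerProductSpace ℝ V]
    (G : Subgroup (V ≃ᵢ V)) (hG : Group.IsSolvable G) {k : ℕ}
    (x σ : Fin (k + 2) → V) (c : Fin (k + 2) → ℝ)
    (hinv : ∀ i, ∀ g ∈ G, ∀ y, ⟪σ i, g y⟫_ℝ = ⟪σ i, y⟫_ℝ)
    (hσ : ∀ i j, ⟪σ i, x j⟫_ℝ + c i = if i = j then 1 else 0)
    (hfin : ∀ i, FinOrb G (x i)) :
    ∃ (N : ℕ) (Q : Subgroup (Equiv.Perm (Fin (N + 1)))) (_ : Group.IsSolvable Q)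
      (f : V → PiLp 2 (fun _ : Fin (N + 1) => V))
      (y σ' : Fin (k + 1) → PiLp 2 (fun _ : Fin (N + 1) => V)) (c' : Fin (k + 1) → ℝ),
      Isometry f ∧
      (∀ i, ∀ g ∈ wreath G Q, ∀ y, ⟪σ' i, g y⟫_ℝ = ⟪σ' i, y⟫_ℝ) ∧
      (∀ i j, ⟪σ' i, y j⟫_ℝ + c' i = if i = j then 1 else 0) ∧
      (∀ i, FinOrb (wreath G Q) (y i)) ∧
      (∀ i, ∀ g ∈ G, ∃ j, ∃ h ∈ wreath G Q, f (g (x i)) = h (y j)) := by
  classical
  set q : ℝ := ‖σ 0‖ ^ 2 with hq
  have hσ00 : ⟪σ 0, x 0⟫_ℝ + c 0 = 1 := by simpa using hσ 0 0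
  have hσ0s : ∀ j : Fin (k + 1), ⟪σ 0, x j.succ⟫_ℝ + c 0 = 0 := by
    intro j
    have := hσ 0 j.succ
    rwa [if_neg (Fin.succ_ne_zero j).symm] at this
  set x0 := x 0 with hx0
  set x1 := x (Fin.succ 0) with hx1
  have hσ01 := hσ0s 0
  rw [← hx1] at hσ01
  have hsub : ⟪σ 0, x0 - x1⟫_ℝ = 1 := by
    rw [inner_sub_right]; linarith
  have hσ0 : σ 0 ≠ 0 := by
    intro h
    rw [h, inner_zero_left] at hsub
    exact zero_ne_one hsub
  have hqpos : 0 < q := by positivity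
  have hxne : x0 - x1 ≠ 0 := by
    intro h
    rw [h, inner_zero_right] at hsub
    exact zero_ne_one hsub
  set D : ℝ := ‖x0 - x1‖ ^ 2 with hD
  have hDpos : 0 < D := by positivity
  obtain ⟨N₀, hN₀⟩ := exists_nat_gt (D * q)
  obtain ⟨N, hN1, hN⟩ : ∃ N : ℕ, 1 ≤ N ∧ D * q < N + 1 := by
    refine ⟨N₀ + 1, by omega, ?_⟩
    push_cast
    linarith
  have hN0 : (0 : ℝ) < N := by exact_mod_cast hN1
  set ε : ℝ := D / (N + 1) with hε
  have hεpos : 0 < ε := by positivity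
  have hεq : ε * q < 1 := by
    rw [hε, div_mul_eq_mul_div, div_lt_one (by positivity)]
    exact hN
  have hεN : D - ε = N * ε := by
    rw [hε]; field_simp; ring
  set τ : ℝ := (1 - Real.sqrt (1 - ε * q)) / q with hτ
  have hroot : 1 - τ * q = Real.sqrt (1 - ε * q) := by
    rw [hτ]; field_simp; ring
  have hrootpos : 0 < 1 - τ * q := by
    rw [hroot]; exact Real.sqrt_pos.2 (by linarith)
  have hτε : 2 * τ - τ ^ 2 * q = ε := by
    have h1 : (1 - τ * q) ^ 2 = 1 - ε * q := by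
      rw [hroot, Real.sq_sqrt (by linarith)]
    have h2 : (2 * τ - τ ^ 2 * q) * q = ε * q := by nlinarith
    exact mul_right_cancel₀ hqpos.ne' h2
  set s : V → ℝ := fun z => ⟪σ 0, z⟫_ℝ + c 0 with hs
  have hsinv : ∀ g ∈ G, ∀ z, s (g z) = s z := by
    intro g hg z
    simp only [hs, hinv 0 g hg z]
  set T : V → V := fun z => z + (-(τ * s z)) • σ 0 with hT
  have hTcomm : ∀ g ∈ G, ∀ z, g (T z) = T (g z) := by
    intro g hg z
    simp only [hT]
    rw [isom_fix g (σ 0) (hinv 0 g hg), hsinv g hg]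
  set a := T x0 with ha
  set b := T x1 with hb
  have hs0 : s x0 = 1 := hσ00
  have hs1 : s x1 = 0 := hσ01
  have hb' : b = x1 := by simp [hb, hT, hs1]
  set u : V := (1 / (N : ℝ)) • (a - b) with hu
  have hNu : (N : ℝ) • u = a - b := by
    rw [hu, smul_smul, mul_one_div_cancel hN0.ne', one_smul]
  set v : ℕ → V := fun l => b + (l : ℝ) • u with hv
  -- distances under `T`
  have hTdist : ∀ z w, ‖T z - T w‖ ^ 2 = ‖z - w‖ ^ 2 - ε * (s z - s w) ^ 2 := by
    intro z w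
    have e1 : T z - T w = (z - w) - (τ * (s z - s w)) • σ 0 := by
      simp only [hT]
      module
    have e2 : ⟪z - w, σ 0⟫_ℝ = s z - s w := by
      simp only [hs]
      rw [real_inner_comm, inner_sub_right]
      ring
    rw [e1, @norm_sub_sq_real, inner_smul_right, e2, norm_smul, mul_pow, ← hq,
      Real.norm_eq_abs, sq_abs, ← hτε]
    ring
  have hab : ‖a - b‖ ^ 2 = N * ε := by
    rw [ha, hb, hTdist, hs0, hs1, ← hD, ← hεN]
    ring
  have hunorm : N * ‖u‖ ^ 2 = ε := by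
    rw [hu, norm_smul, mul_pow, hab, Real.norm_eq_abs, sq_abs]
    field_simp
  set f : V → PiLp 2 (fun _ : Fin (N + 1) => V) := fun z =>
    WithLp.toLp 2 (Fin.cons (T z) (fun l : Fin N => v (l + 1) - s z • u)) with hf
  have hf0 : ∀ z, f z 0 = T z := fun z => rfl
  have hfs : ∀ z (l : Fin N), f z l.succ = v (l + 1) - s z • u := fun z l => rfl
  have hfisom : Isometry f := by
    refine Isometry.of_dist_eq fun z w => ?_
    have h1 : dist (f z) (f w) ^ 2 = dist z w ^ 2 := by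
      rw [PiLp.dist_eq_of_L2, Real.sq_sqrt (by positivity), Fin.sum_univ_succ, hf0, hf0,
        dist_eq_norm, hTdist]
      have h2 : ∀ l : Fin N, dist (f z l.succ) (f w l.succ) ^ 2 =
          (s z - s w) ^ 2 * ‖u‖ ^ 2 := by
        intro l
        rw [hfs, hfs, dist_eq_norm]
        have : v (l + 1) - s z • u - (v (l + 1) - s w • u) = (-(s z - s w)) • u := by
          module
        rw [this, norm_smul, mul_pow, Real.norm_eq_abs, sq_abs]
        ring
      simp only [h2, Finset.sum_const, Finset.card_univ, Fintype.card_fin, nsmul_eq_mul]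
      rw [dist_eq_norm]
      have := hunorm
      calc ‖z - w‖ ^ 2 - ε * (s z - s w) ^ 2 + N * ((s z - s w) ^ 2 * ‖u‖ ^ 2)
          = ‖z - w‖ ^ 2 - ε * (s z - s w) ^ 2 + (s z - s w) ^ 2 * (N * ‖u‖ ^ 2) := by ring
        _ = ‖z - w‖ ^ 2 := by rw [this]; ring
    exact (sq_eq_sq₀ dist_nonneg dist_nonneg).1 h1
  -- the path
  have hvN : v N = a := by
    simp only [hv]
    rw [hNu]; abel
  have hv0 : v 0 = b := by simp [hv]
  have hx1path : ∀ l : Fin (N + 1), f x1 l = v l := by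
    intro l
    refine Fin.cases ?_ (fun l' => ?_) l
    · rw [hf0]; simp [hv0, hb]
    · rw [hfs, hs1]; simp
  have hx0path : ∀ l : Fin (N + 1), f x0 (finRotate (N + 1) l) = v l := by
    intro l
    refine Fin.lastCases ?_ (fun l' => ?_) l
    · rw [finRotate_last, hf0, Fin.val_last, hvN]
    · rw [finRotate_apply, Fin.coeSucc_eq_succ, hfs, hs0]
      simp only [hv, Fin.val_castSucc]
      push_cast
      module
  -- the group
  set Q : Subgroup (Equiv.Perm (Fin (N + 1))) := Subgroup.zpowers (finRotate (N + 1)) with hQ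
  have hQs : Group.IsSolvable Q := by
    apply Group.isSolvable_of_comm
    intro a b
    exact (Subgroup.zpowers_isMulCommutative (finRotate (N + 1))).is_comm.comm a b
  set κ : ℝ := τ / (1 - τ * q) with hκ
  set t : Fin (k + 1) → V := fun i => σ i.succ + (κ * ⟪σ 0, σ i.succ⟫_ℝ) • σ 0 with ht
  have htinv : ∀ i, ∀ g ∈ G, ∀ y, ⟪t i, g y⟫_ℝ = ⟪t i, y⟫_ℝ := by
    intro i g hg y
    simp only [ht, inner_add_left, inner_smul_left, hinv _ g hg]
  have htT : ∀ i z, ⟪t i, T z⟫_ℝ = ⟪σ i.succ, z⟫_ℝ - τ * c 0 * ⟪t i, σ 0⟫_ℝ := by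
    intro i z
    simp only [hT, ht, hs]
    simp only [inner_add_left, inner_add_right, inner_smul_left, inner_smul_right,
      real_inner_self_eq_norm_sq, ← hq, RCLike.conj_to_real]
    rw [real_inner_comm (σ 0) (σ i.succ)]
    have h3 : κ * (1 - τ * q) = τ := by
      rw [hκ]; field_simp
    generalize ⟪σ 0, σ i.succ⟫_ℝ = A at *
    generalize ⟪σ 0, z⟫_ℝ = B at *
    linear_combination (A * B) * h3
  have hx0eq : f x0 = wr (fun _ => (1 : V ≃ᵢ V)) (finRotate (N + 1)) (f x1) := by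
    ext l
    obtain ⟨l', rfl⟩ := (finRotate (N + 1)).surjective l
    rw [hx0path, wr_apply]
    have e1 : (finRotate (N + 1))⁻¹ (finRotate (N + 1) l') = l' :=
      (finRotate (N + 1)).symm_apply_apply l'
    rw [e1, hx1path]
    rfl
  have hgf : ∀ g ∈ G, ∀ z, f (g z) = wr (Fin.cons g (fun _ => 1)) 1 (f z) := by
    intro g hg z
    ext l
    rw [wr_apply, inv_one, Equiv.Perm.one_apply]
    refine Fin.cases ?_ (fun l' => ?_) l
    · rw [hf0, hf0, Fin.cons_zero, hTcomm g hg]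
    · rw [hfs, hfs, Fin.cons_succ, hsinv g hg]
      rfl
  have hgmem : ∀ g ∈ G, wr (Fin.cons g (fun _ => 1) : Fin (N + 1) → (V ≃ᵢ V)) 1 ∈
      wreath G Q := by
    intro g hg
    refine wr_mem (fun j => ?_) Q.one_mem
    refine Fin.cases ?_ (fun l' => ?_) j
    · rw [Fin.cons_zero]; exact hg
    · rw [Fin.cons_succ]; exact G.one_mem
  have hrot : wr (fun _ => (1 : V ≃ᵢ V)) (finRotate (N + 1)) ∈ wreath G Q :=
    wr_mem (fun _ => G.one_mem) (Subgroup.mem_zpowers _)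
  refine ⟨N, Q, hQs, f, fun i => f (x i.succ), fun i => WithLp.toLp 2 fun _ => t i,
    fun i => c i.succ - (∑ l : Fin N, ⟪t i, v (l + 1)⟫_ℝ - τ * c 0 * ⟪t i, σ 0⟫_ℝ),
    hfisom, ?_, ?_, ?_, ?_⟩
  · intro i g hg y
    obtain ⟨h, hh, ρ, _, rfl⟩ := mem_wreath hg
    rw [PiLp.inner_apply, PiLp.inner_apply]
    simp only [wr_apply, htinv i _ (hh _)]
    exact Equiv.sum_comp (ρ⁻¹ : Equiv.Perm (Fin (N + 1))) fun j => ⟪t i, y j⟫_ℝ
  · intro i j
    rw [PiLp.inner_apply, Fin.sum_univ_succ]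
    simp only [hf0, hfs]
    have hsj : s (x j.succ) = 0 := hσ0s j
    rw [htT, hsj]
    simp only [zero_smul, sub_zero]
    have := hσ i.succ j.succ
    have e2 : (if i = j then (1 : ℝ) else 0) = if i.succ = j.succ then 1 else 0 := by
      by_cases hij : i = j
      · rw [if_pos hij, if_pos (congrArg _ hij)]
      · rw [if_neg hij, if_neg (fun h => hij (Fin.succ_injective _ h))]
    rw [e2, ← this]
    ring
  · intro i
    refine FinOrb.wreath Q fun l => ?_
    refine Fin.cases ?_ (fun l' => ?_) l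
    · rw [hf0]
      exact FinOrb.map (hfin _) T fun g hg => hTcomm g hg _
    · have hsj : s (x i.succ) = 0 := hσ0s i
      simp only [hfs, hsj, zero_smul, sub_zero]
      have e : v (l' + 1) = b + (((l' : ℕ) + 1 : ℝ) / N) • (a - b) := by
        simp only [hv, hu, smul_smul]
        push_cast
        congr 2
        ring
      rw [e]
      exact FinOrb.lineMap (FinOrb.map (hfin _) T fun g hg => hTcomm g hg _)
        (FinOrb.map (hfin _) T fun g hg => hTcomm g hg _) _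
  · intro i g hg
    refine Fin.cases ?_ (fun i' => ?_) i
    · refine ⟨0, wr (Fin.cons g (fun _ => 1)) 1 *
        wr (fun _ => (1 : V ≃ᵢ V)) (finRotate (N + 1)),
        Subgroup.mul_mem _ (hgmem g hg) hrot, ?_⟩
      rw [hgf g hg, ← hx0, hx0eq]
      rfl
    · exact ⟨i', _, hgmem g hg, hgf g hg _⟩

end Pool.Agent.W_MP_955314_co
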