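import Mathlib
import Pool.Agent.W_MP_955314_co.Merge
import Pool.Agent.W_MP_955314_co.Pattern

/-!
Orbits separated by invariant affine functionals; affinely independent centroids.
-/

namespace Pool.Agent.W_MP_955314_co

open scoped InnerProductSpace

theorem mergeAll (k : ℕ) : ∀ (V : Type) [NormedAddCommGroup V] [InnerProductSpace ℝ V]
    [FiniteDimensional ℝ V] (G : Subgroup (V ≃ᵢ V)) (_ : Group.IsSolvable G)
    (x σ : Fin (k + 1) → V) (c : Fin (k + 1) → ℝ)
    (_ : ∀ i, ∀ g ∈ G, ∀ y, ⟪σ i, g y⟫_ℝ = ⟪σ i, y⟫_ℝ)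
    (_ : ∀ i j, ⟪σ i, x j⟫_ℝ + c i = if i = j then 1 else 0)
    (_ : ∀ i, FinOrb G (x i)),
    ∃ (W : Type) (_ : NormedAddCommGroup W) (_ : InnerProductSpace ℝ W)
      (_ : FiniteDimensional ℝ W) (H : Subgroup (W ≃ᵢ W)) (_ : Group.IsSolvable H)
      (f : V → W) (y : W), Isometry f ∧ FinOrb H y ∧
      ∀ i, ∀ g ∈ G, ∃ h ∈ H, f (g (x i)) = h y := by
  induction k with
  | zero =>
    intro V _ _ _ G hG x σ c _ _ hfin
    refine ⟨V, inferInstance, inferInstance, inferInstance, G, hG, id, x 0, isometry_id,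
      hfin 0, ?_⟩
    intro i g hg
    rw [Fin.fin_one_eq_zero i]
    exact ⟨g, hg, rfl⟩
  | succ k ih =>
    intro V _ _ _ G hG x σ c hinv hσ hfin
    obtain ⟨N, Q, hQ, f, y, σ', c', hf, hinv', hσ', hfin', hfx⟩ :=
      merge G hG x σ c hinv hσ hfin
    obtain ⟨W, i1, i2, i3, H, hH, f', y', hf', hfin'', hfx'⟩ :=
      ih (PiLp 2 (fun _ : Fin (N + 1) => V)) (wreath G Q) (isSolvable_wreath G Q) y σ' c'
        hinv' hσ' hfin'
    refine ⟨W, i1, i2, i3, H, hH, f' ∘ f, y', hf'.comp hf, hfin'', ?_⟩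
    intro i g hg
    obtain ⟨j, h, hh, he⟩ := hfx i g hg
    obtain ⟨h', hh', he'⟩ := hfx' j h hh
    refine ⟨h', hh', ?_⟩
    rw [Function.comp_apply, he, he']

theorem isom_eq {V : Type*} [NormedAddCommGroup V] [InnerProductSpace ℝ V] (g : V ≃ᵢ V) (x : V) :
    g x = g.toRealLinearIsometryEquiv x + g 0 := by
  rw [IsometryEquiv.toRealLinearIsometryEquiv_apply]; abel

theorem isom_centroid {V : Type*} [NormedAddCommGroup V] [InnerProductSpace ℝ V] (g : V ≃ᵢ V)
    (S : Finset V) (hS : S.Nonempty) (h : ∀ x ∈ S, g x ∈ S) : g (centroid S) = centroid S := by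
  classical
  have hcard : (S.card : ℝ) ≠ 0 := by exact_mod_cast hS.card_pos.ne'
  have himg : S.image g = S := by
    apply Finset.eq_of_subset_of_card_le
    · intro y hy
      obtain ⟨x, hx, rfl⟩ := Finset.mem_image.1 hy
      exact h x hx
    · rw [Finset.card_image_of_injective _ g.injective]
  have h1 : ∑ x ∈ S, g x = ∑ x ∈ S, x := by
    conv_rhs => rw [← himg]
    rw [Finset.sum_image fun x _ y _ hxy => g.injective hxy]
  have h2 : ∑ x ∈ S, g x = g.toRealLinearIsometryEquiv (∑ x ∈ S, x) + (S.card : ℝ) • g 0 := by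
    rw [map_sum, Finset.sum_congr rfl fun x _ => isom_eq g x, Finset.sum_add_distrib,
      Finset.sum_const, Nat.cast_smul_eq_nsmul]
  rw [h1] at h2
  rw [isom_eq g (centroid S), centroid, map_smul]
  have h3 : g.toRealLinearIsometryEquiv (∑ x ∈ S, x) = ∑ x ∈ S, x - (S.card : ℝ) • g 0 := by
    rw [eq_sub_iff_add_eq]; exact h2.symm
  rw [h3, smul_sub, smul_smul, inv_mul_cancel₀ hcard, one_smul]
  abel

/-- Dual functionals of an affinely independent family, with gradients in the direction of the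
affine span. -/
theorem exists_dual {V : Type*} [NormedAddCommGroup V] [InnerProductSpace ℝ V]
    [FiniteDimensional ℝ V] {k : ℕ} (p : Fin (k + 1) → V) (hp : AffineIndependent ℝ p) :
    ∃ (σ : Fin (k + 1) → V) (c : Fin (k + 1) → ℝ),
      (∀ i, σ i ∈ Submodule.span ℝ (Set.range fun j => p j - p 0)) ∧
      ∀ i j, ⟪σ i, p j⟫_ℝ + c i = if i = j then 1 else 0 := by
  classical
  rw [affineIndependent_iff_linearIndependent_vsub ℝ p 0] at hp
  simp only [vsub_eq_sub] at hp
  set b : {x : Fin (k + 1) // x ≠ 0} → V := fun i => p i - p 0 with hb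
  set D := Submodule.span ℝ (Set.range b) with hD
  set B := Module.Basis.span hp with hB
  set d : {x : Fin (k + 1) // x ≠ 0} → V := fun i =>
    (((InnerProductSpace.toDual ℝ D).symm (B.coord i).toContinuousLinearMap : D) : V) with hd
  have hdD : ∀ i, d i ∈ D := fun i => Subtype.coe_prop _
  have hdb : ∀ i j, ⟪d i, b j⟫_ℝ = if i = j then 1 else 0 := by
    intro i j
    have h1 : (B j : V) = b j := by
      rw [hB, Module.Basis.span_apply]
    rw [← h1]
    change ⟪(InnerProductSpace.toDual ℝ D).symm (B.coord i).toContinuousLinearMap, B j⟫_ℝ = _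
    rw [InnerProductSpace.toDual_symm_apply]
    simp only [LinearMap.coe_toContinuousLinearMap', Module.Basis.coord_apply,
      Module.Basis.repr_self]
    rw [Finsupp.single_apply]
    by_cases hij : i = j
    · rw [if_pos hij, if_pos hij.symm]
    · rw [if_neg hij, if_neg (fun h => hij h.symm)]
  have hDle : D ≤ Submodule.span ℝ (Set.range fun j => p j - p 0) := by
    apply Submodule.span_mono
    rintro _ ⟨i, rfl⟩
    exact ⟨i, rfl⟩
  set σ : Fin (k + 1) → V := fun i => if h : i = 0 then - ∑ l, d l else d ⟨i, h⟩ with hσ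
  have hσ0 : σ 0 = - ∑ l, d l := by simp [hσ]
  have hσs : ∀ i (h : i ≠ 0), σ i = d ⟨i, h⟩ := by
    intro i h
    simp [hσ, h]
  refine ⟨σ, fun i => (if i = 0 then 1 else 0) - ⟪σ i, p 0⟫_ℝ, ?_, ?_⟩
  · intro i
    by_cases h : i = 0
    · rw [h, hσ0]
      exact Submodule.neg_mem _ (Submodule.sum_mem _ fun l _ => hDle (hdD l))
    · rw [hσs i h]
      exact hDle (hdD _)
  · intro i j
    have e : ⟪σ i, p j⟫_ℝ + ((if i = 0 then 1 else 0) - ⟪σ i, p 0⟫_ℝ) =
        ⟪σ i, p j - p 0⟫_ℝ + (if i = 0 then 1 else 0) := by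
      rw [inner_sub_right]; ring
    rw [e]
    by_cases hj : j = 0
    · subst hj
      simp
    · by_cases hi : i = 0
      · subst hi
        rw [hσ0, inner_neg_left, sum_inner]
        have : ∀ l, ⟪d l, p j - p 0⟫_ℝ = if l = ⟨j, hj⟩ then 1 else 0 :=
          fun l => hdb l ⟨j, hj⟩
        simp only [this, Finset.sum_ite_eq', Finset.mem_univ, if_true]
        rw [if_neg (fun h => hj h.symm)]
        norm_num
      · rw [hσs i hi]
        have := hdb ⟨i, hi⟩ ⟨j, hj⟩
        simp only [hb] at this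
        rw [this, if_neg hi]
        simp

theorem centroidTheorem {n k : ℕ} (X : Set (EuclideanSpace ℝ (Fin n)))
    (G : Subgroup (EuclideanSpace ℝ (Fin n) ≃ᵢ EuclideanSpace ℝ (Fin n)))
    (hG : Group.IsSolvable G)
    (O : Fin k → Finset (EuclideanSpace ℝ (Fin n)))
    (hne : ∀ i, (O i).Nonempty)
    (hO : ∀ i, ∀ g ∈ G, ∀ x ∈ O i, g x ∈ O i)
    (htr : ∀ i, ∀ x ∈ O i, ∀ y ∈ O i, ∃ g ∈ G, g x = y)
    (hX : X ⊆ ⋃ i, (O i : Set (EuclideanSpace ℝ (Fin n))))
    (hc : AffineIndependent ℝ fun i => centroid (O i)) :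
    InSolubleSet X := by
  classical
  rcases k with _ | k
  · have : X = ∅ := by
      apply Set.eq_empty_of_subset_empty
      refine hX.trans ?_
      simp
    rw [this]
    exact inSolubleSet_empty
  obtain ⟨σ, c, hσD, hσc⟩ := exists_dual _ hc
  choose x hx using hne
  have hfix : ∀ g ∈ G, ∀ i, g (centroid (O i)) = centroid (O i) := fun g hg i =>
    isom_centroid g (O i) ⟨x i, hx i⟩ (hO i g hg)
  have hL : ∀ g ∈ G, ∀ w ∈ Submodule.span ℝ (Set.range fun j =>
      centroid (O j) - centroid (O 0)), g.toRealLinearIsometryEquiv w = w := by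
    intro g hg w hw
    induction hw using Submodule.span_induction with
    | mem w hw =>
      obtain ⟨j, rfl⟩ := hw
      simp only [map_sub]
      have h1 := isom_eq g (centroid (O j))
      have h2 := isom_eq g (centroid (O 0))
      rw [hfix g hg] at h1 h2
      have h3 : g.toRealLinearIsometryEquiv (centroid (O j)) = centroid (O j) - g 0 := by
        rw [eq_sub_iff_add_eq]; exact h1.symm
      have h4 : g.toRealLinearIsometryEquiv (centroid (O 0)) = centroid (O 0) - g 0 := by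
        rw [eq_sub_iff_add_eq]; exact h2.symm
      rw [h3, h4]; abel
    | zero => exact map_zero _
    | add u v _ _ hu hv => rw [map_add, hu, hv]
    | smul a u _ hu => rw [map_smul, hu]
  have hinv : ∀ i, ∀ g ∈ G, ∀ y, ⟪σ i, g y⟫_ℝ = ⟪σ i, y⟫_ℝ := by
    intro i g hg y
    have e1 : g y = g.toRealLinearIsometryEquiv (y - centroid (O 0)) + centroid (O 0) := by
      have h1 := isom_eq g y
      have h2 := isom_eq g (centroid (O 0))
      rw [hfix g hg] at h2
      rw [map_sub, h1]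
      have h4 : g.toRealLinearIsometryEquiv (centroid (O 0)) = centroid (O 0) - g 0 := by
        rw [eq_sub_iff_add_eq]; exact h2.symm
      rw [h4]; abel
    have e2 : ⟪σ i, g.toRealLinearIsometryEquiv (y - centroid (O 0))⟫_ℝ =
        ⟪σ i, y - centroid (O 0)⟫_ℝ := by
      conv_lhs => rw [← hL g hg (σ i) (hσD i)]
      exact LinearIsometryEquiv.inner_map_map _ _ _
    rw [e1, inner_add_right, e2, inner_sub_right]
    ring
  have hconst : ∀ i j, ⟪σ i, x j⟫_ℝ = ⟪σ i, centroid (O j)⟫_ℝ := by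
    intro i j
    have h1 : ∀ y ∈ O j, ⟪σ i, y⟫_ℝ = ⟪σ i, x j⟫_ℝ := by
      intro y hy
      obtain ⟨g, hg, rfl⟩ := htr j (x j) (hx j) y hy
      exact hinv i g hg _
    have hcard : ((O j).card : ℝ) ≠ 0 := by
      exact_mod_cast (Finset.card_pos.2 ⟨x j, hx j⟩).ne'
    rw [centroid, inner_smul_right, inner_sum, Finset.sum_congr rfl h1, Finset.sum_const,
      nsmul_eq_mul, inv_mul_cancel_left₀ hcard]
  have hfin : ∀ i, FinOrb G (x i) := by
    intro i
    refine (O i).finite_toSet.subset ?_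
    rintro _ ⟨g, hg, rfl⟩
    exact hO i g hg _ (hx i)
  obtain ⟨W, _, _, _, H, hH, f, y, hf, hyfin, hfx⟩ :=
    mergeAll k (EuclideanSpace ℝ (Fin n)) G hG x σ c hinv
      (fun i j => by rw [hconst, hσc]) hfin
  refine inSolubleSet_of_abstract H hH {z | ∃ h ∈ H, h y = z} hyfin ?_ ?_ 1 one_pos f ?_ ?_
  · rintro h hh _ ⟨h', hh', rfl⟩
    exact ⟨h * h', H.mul_mem hh hh', rfl⟩
  · rintro _ ⟨h, hh, rfl⟩ _ ⟨h', hh', rfl⟩
    refine ⟨h' * h⁻¹, H.mul_mem hh' (H.inv_mem hh), ?_⟩
    rw [IsometryEquiv.mul_apply, IsometryEquiv.inv_apply_self]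
  · intro u v
    rw [hf.dist_eq, one_mul]
  · intro u hu
    obtain ⟨i, hi⟩ := Set.mem_iUnion.1 (hX hu)
    obtain ⟨g, hg, rfl⟩ := htr i (x i) (hx i) u hi
    obtain ⟨h, hh, he⟩ := hfx i g hg
    exact ⟨h, hh, he.symm⟩

end Pool.Agent.W_MP_955314_co
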