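import Mathlib
import Pool.Agent.W_MP_955314_co.Cover120

/-!
Finite computations for the 600-cell.  All vertex vectors and the powers of the icosian of order
five are scaled by `4`, and the powers of the Hurwitz unit of order three by `2`.
-/

namespace Pool.Agent.W_MP_955314_co

/-- Four times the powers of an icosian of order five. -/
def Zm6 : ℕ → Q5
  | 0 => ⟨⟨4, 0⟩, ⟨0, 0⟩, ⟨0, 0⟩, ⟨0, 0⟩⟩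
  | 1 => ⟨⟨-1, 1⟩, ⟨-2, 0⟩, ⟨0, 0⟩, ⟨-1, -1⟩⟩
  | 2 => ⟨⟨-1, -1⟩, ⟨1, -1⟩, ⟨0, 0⟩, ⟨-2, 0⟩⟩
  | 3 => ⟨⟨-1, -1⟩, ⟨-1, 1⟩, ⟨0, 0⟩, ⟨2, 0⟩⟩
  | _ => ⟨⟨-1, 1⟩, ⟨2, 0⟩, ⟨0, 0⟩, ⟨1, 1⟩⟩

def vA1 : Q5 := ⟨⟨4, 0⟩, ⟨0, 0⟩, ⟨0, 0⟩, ⟨0, 0⟩⟩
def vA2 : Q5 := ⟨⟨2, 0⟩, ⟨2, 0⟩, ⟨2, 0⟩, ⟨2, 0⟩⟩
def vB6 : Q5 := ⟨⟨1, 1⟩, ⟨2, 0⟩, ⟨-1, 1⟩, ⟨0, 0⟩⟩

def tA6 : ℕ → Q5
  | 0 => vA1
  | _ => vA2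
def tB6 : ℕ → Q5 := fun _ => vB6

/-- The `24` Hurwitz units. -/
def LA6 : List Q5 :=
  [⟨⟨-4, 0⟩, ⟨0, 0⟩, ⟨0, 0⟩, ⟨0, 0⟩⟩,
   ⟨⟨-2, 0⟩, ⟨-2, 0⟩, ⟨-2, 0⟩, ⟨-2, 0⟩⟩,
   ⟨⟨-2, 0⟩, ⟨-2, 0⟩, ⟨-2, 0⟩, ⟨2, 0⟩⟩,
   ⟨⟨-2, 0⟩, ⟨-2, 0⟩, ⟨2, 0⟩, ⟨-2, 0⟩⟩,
   ⟨⟨-2, 0⟩, ⟨-2, 0⟩, ⟨2, 0⟩, ⟨2, 0⟩⟩,
   ⟨⟨-2, 0⟩, ⟨2, 0⟩, ⟨-2, 0⟩, ⟨-2, 0⟩⟩,
   ⟨⟨-2, 0⟩, ⟨2, 0⟩, ⟨-2, 0⟩, ⟨2, 0⟩⟩,
   ⟨⟨-2, 0⟩, ⟨2, 0⟩, ⟨2, 0⟩, ⟨-2, 0⟩⟩,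
   ⟨⟨-2, 0⟩, ⟨2, 0⟩, ⟨2, 0⟩, ⟨2, 0⟩⟩,
   ⟨⟨0, 0⟩, ⟨-4, 0⟩, ⟨0, 0⟩, ⟨0, 0⟩⟩,
   ⟨⟨0, 0⟩, ⟨0, 0⟩, ⟨-4, 0⟩, ⟨0, 0⟩⟩,
   ⟨⟨0, 0⟩, ⟨0, 0⟩, ⟨0, 0⟩, ⟨-4, 0⟩⟩,
   ⟨⟨0, 0⟩, ⟨0, 0⟩, ⟨0, 0⟩, ⟨4, 0⟩⟩,
   ⟨⟨0, 0⟩, ⟨0, 0⟩, ⟨4, 0⟩, ⟨0, 0⟩⟩,
   ⟨⟨0, 0⟩, ⟨4, 0⟩, ⟨0, 0⟩, ⟨0, 0⟩⟩,
   ⟨⟨2, 0⟩, ⟨-2, 0⟩, ⟨-2, 0⟩, ⟨-2, 0⟩⟩,
   ⟨⟨2, 0⟩, ⟨-2, 0⟩, ⟨-2, 0⟩, ⟨2, 0⟩⟩,
   ⟨⟨2, 0⟩, ⟨-2, 0⟩, ⟨2, 0⟩, ⟨-2, 0⟩⟩,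
   ⟨⟨2, 0⟩, ⟨-2, 0⟩, ⟨2, 0⟩, ⟨2, 0⟩⟩,
   ⟨⟨2, 0⟩, ⟨2, 0⟩, ⟨-2, 0⟩, ⟨-2, 0⟩⟩,
   ⟨⟨2, 0⟩, ⟨2, 0⟩, ⟨-2, 0⟩, ⟨2, 0⟩⟩,
   ⟨⟨2, 0⟩, ⟨2, 0⟩, ⟨2, 0⟩, ⟨-2, 0⟩⟩,
   ⟨⟨2, 0⟩, ⟨2, 0⟩, ⟨2, 0⟩, ⟨2, 0⟩⟩,
   ⟨⟨4, 0⟩, ⟨0, 0⟩, ⟨0, 0⟩, ⟨0, 0⟩⟩]

def chkT6 (τ : ℕ → Q5) (y : Q5) : Bool :=
  [1, 2].any fun u => [0, 1, 2].any fun c =>
    [0, 1, 2].all fun s => isType ((Wm s).mul y) ((τ ((u * s + c) % 3)).smul 8)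

def chkBase6 (l : List Q5) : Bool :=
  l.all fun a => chkT6 tA6 ((Zm6 0).mul a) &&
    [1, 2, 3, 4].all fun i => chkT6 tB6 ((Zm6 i).mul a)

theorem chkBase6_LA : chkBase6 LA6 = true := by decide +kernel

def all600 : List Q5 := vecs vA1 P24 ++ (vecs vA2 P24 ++ vecs vB6 P12)

def hints600 : List ℕ :=
  [115, 115, 115, 115, 115, 115, 115, 115, 0, 0, 0, 0, 0, 0, 0, 0, 115, 115, 115, 115, 115, 115, 115, 115,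
   0, 0, 0, 0, 0, 0, 0, 0, 115, 115, 115, 115, 115, 115, 115, 115, 0, 0, 0, 0, 0, 0, 0, 0,
   70, 70, 70, 70, 45, 45, 45, 45, 70, 70, 70, 70, 45, 45, 45, 45, 60, 55, 60, 55, 60, 55, 60, 55,
   60, 55, 60, 55, 60, 55, 60, 55, 65, 65, 50, 50, 65, 65, 50, 50, 65, 65, 50, 50, 65, 65, 50, 50,
   65, 65, 50, 50, 65, 65, 50, 50, 65, 65, 50, 50, 65, 65, 50, 50, 70, 70, 70, 70, 45, 45, 45, 45,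
   70, 70, 70, 70, 45, 45, 45, 45, 60, 55, 60, 55, 60, 55, 60, 55, 60, 55, 60, 55, 60, 55, 60, 55,
   60, 55, 60, 55, 60, 55, 60, 55, 60, 55, 60, 55, 60, 55, 60, 55, 65, 65, 50, 50, 65, 65, 50, 50,
   65, 65, 50, 50, 65, 65, 50, 50, 70, 70, 70, 70, 45, 45, 45, 45, 70, 70, 70, 70, 45, 45, 45, 45,
   115, 115, 115, 115, 115, 115, 115, 115, 0, 0, 0, 0, 0, 0, 0, 0, 115, 115, 115, 115, 115, 115, 115, 115,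
   0, 0, 0, 0, 0, 0, 0, 0, 115, 115, 115, 115, 115, 115, 115, 115, 0, 0, 0, 0, 0, 0, 0, 0,
   70, 70, 70, 70, 45, 45, 45, 45, 70, 70, 70, 70, 45, 45, 45, 45, 65, 65, 50, 50, 65, 65, 50, 50,
   65, 65, 50, 50, 65, 65, 50, 50, 60, 55, 60, 55, 60, 55, 60, 55, 60, 55, 60, 55, 60, 55, 60, 55,
   60, 55, 60, 55, 60, 55, 60, 55, 60, 55, 60, 55, 60, 55, 60, 55, 70, 70, 70, 70, 45, 45, 45, 45,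
   70, 70, 70, 70, 45, 45, 45, 45, 65, 65, 50, 50, 65, 65, 50, 50, 65, 65, 50, 50, 65, 65, 50, 50,
   65, 65, 50, 50, 65, 65, 50, 50, 65, 65, 50, 50, 65, 65, 50, 50, 60, 55, 60, 55, 60, 55, 60, 55,
   60, 55, 60, 55, 60, 55, 60, 55, 70, 70, 70, 70, 45, 45, 45, 45, 70, 70, 70, 70, 45, 45, 45, 45,
   110, 105, 100, 95, 90, 85, 80, 75, 40, 35, 30, 25, 20, 15, 10, 5, 110, 105, 100, 95, 90, 85, 80, 75,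
   40, 35, 30, 25, 20, 15, 10, 5, 110, 105, 100, 95, 90, 85, 80, 75, 40, 35, 30, 25, 20, 15, 10, 5,
   110, 105, 100, 95, 90, 85, 80, 75, 40, 35, 30, 25, 20, 15, 10, 5, 110, 105, 100, 95, 90, 85, 80, 75,
   40, 35, 30, 25, 20, 15, 10, 5, 110, 105, 100, 95, 90, 85, 80, 75, 40, 35, 30, 25, 20, 15, 10, 5,
   110, 105, 100, 95, 90, 85, 80, 75, 40, 35, 30, 25, 20, 15, 10, 5, 110, 105, 100, 95, 90, 85, 80, 75,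
   40, 35, 30, 25, 20, 15, 10, 5, 110, 105, 100, 95, 90, 85, 80, 75, 40, 35, 30, 25, 20, 15, 10, 5,
   110, 105, 100, 95, 90, 85, 80, 75, 40, 35, 30, 25, 20, 15, 10, 5, 110, 105, 100, 95, 90, 85, 80, 75,
   40, 35, 30, 25, 20, 15, 10, 5, 110, 105, 100, 95, 90, 85, 80, 75, 40, 35, 30, 25, 20, 15, 10, 5,
   110, 105, 100, 95, 90, 85, 80, 75, 40, 35, 30, 25, 20, 15, 10, 5, 110, 105, 100, 95, 90, 85, 80, 75,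
   40, 35, 30, 25, 20, 15, 10, 5, 110, 105, 100, 95, 90, 85, 80, 75, 40, 35, 30, 25, 20, 15, 10, 5,
   110, 105, 100, 95, 90, 85, 80, 75, 40, 35, 30, 25, 20, 15, 10, 5, 110, 105, 100, 95, 90, 85, 80, 75,
   40, 35, 30, 25, 20, 15, 10, 5, 110, 105, 100, 95, 90, 85, 80, 75, 40, 35, 30, 25, 20, 15, 10, 5,
   110, 105, 100, 95, 90, 85, 80, 75, 40, 35, 30, 25, 20, 15, 10, 5, 110, 105, 100, 95, 90, 85, 80, 75,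
   40, 35, 30, 25, 20, 15, 10, 5, 110, 105, 100, 95, 90, 85, 80, 75, 40, 35, 30, 25, 20, 15, 10, 5,
   110, 105, 100, 95, 90, 85, 80, 75, 40, 35, 30, 25, 20, 15, 10, 5, 110, 105, 100, 95, 90, 85, 80, 75,
   40, 35, 30, 25, 20, 15, 10, 5, 110, 105, 100, 95, 90, 85, 80, 75, 40, 35, 30, 25, 20, 15, 10, 5,
   7, 7, 76, 76, 33, 33, 104, 104, 19, 19, 88, 88, 41, 41, 112, 112, 3, 114, 3, 114, 86, 2, 86, 2,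
   117, 31, 117, 31, 9, 118, 9, 118, 64, 56, 17, 43, 64, 56, 17, 43, 78, 102, 61, 59, 78, 102, 61, 59,
   44, 23, 44, 23, 37, 16, 37, 16, 101, 82, 101, 82, 98, 79, 98, 79, 57, 63, 34, 6, 57, 63, 34, 6,
   111, 89, 58, 62, 111, 89, 58, 62, 13, 13, 74, 74, 27, 27, 46, 46, 71, 71, 92, 92, 49, 49, 108, 108,
   106, 94, 38, 22, 106, 94, 38, 22, 97, 83, 29, 11, 97, 83, 29, 11, 96, 96, 47, 47, 84, 84, 73, 73,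
   48, 48, 39, 39, 72, 72, 21, 21, 116, 12, 116, 12, 28, 119, 28, 119, 4, 93, 4, 93, 107, 1, 107, 1,
   8, 26, 87, 109, 14, 32, 91, 113, 8, 26, 87, 109, 14, 32, 91, 113, 24, 52, 81, 68, 53, 36, 67, 99,
   24, 52, 81, 68, 53, 36, 67, 99, 77, 69, 18, 51, 66, 103, 54, 42, 77, 69, 18, 51, 66, 103, 54, 42]

def chkHint6 (x : Q5) (h : ℕ) : Bool :=
  match LA6[h / 5]? with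
  | some a => Q5.eqb ((Zm6 (h % 5)).mul x) (a.smul 4)
  | none => false

def chkList6 : List Q5 → List ℕ → Bool
  | [], _ => true
  | _ :: _, [] => false
  | x :: xs, h :: hs => chkHint6 x h && chkList6 xs hs

theorem chkList6_spec : ∀ (xs : List Q5) (hs : List ℕ), chkList6 xs hs = true →
    ∀ x ∈ xs, ∃ h, chkHint6 x h = true
  | [], _, _, x, hx => by simp at hx
  | _ :: _, [], h, _, _ => by simp [chkList6] at h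
  | y :: xs, h :: hs, hc, x, hx => by
    simp only [chkList6, Bool.and_eq_true] at hc
    rcases List.mem_cons.1 hx with rfl | hx
    · exact ⟨h, hc.1⟩
    · exact chkList6_spec xs hs hc.2 x hx

theorem chkList_all600 : chkList6 all600 hints600 = true := by decide +kernel

theorem cover600 {x : Q5} (hx : x ∈ all600) :
    ∃ i < 5, ∃ a ∈ LA6, (Zm6 i).mul x = a.smul 4 := by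
  obtain ⟨h, hh⟩ := chkList6_spec all600 hints600 chkList_all600 x hx
  refine ⟨h % 5, Nat.mod_lt _ (by norm_num), ?_⟩
  unfold chkHint6 at hh
  split at hh
  · rename_i a ha
    exact ⟨a, List.mem_of_getElem? ha, Q5.eqb_eq hh⟩
  · simp at hh

end Pool.Agent.W_MP_955314_co
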