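import Mathlib
import Pool.Agent.W_MP_955314_co.Transfer
import Pool.Agent.W_MP_955314_co.Pattern

/-!
Type systems: a soluble group of isometries together with a family of finite sets on each of
which it is transitive, and their wreath products.
-/

namespace Pool.Agent.W_MP_955314_co

/-- A soluble group of isometries with finite invariant sets `O k` on which it is transitive. -/
structure TypeSys (W : Type) [NormedAddCommGroup W] (K : Type) where
  H : Subgroup (W ≃ᵢ W)
  solv : Group.IsSolvable H
  O : K → Set W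
  fin : ∀ k, (O k).Finite
  inv : ∀ k, ∀ h ∈ H, ∀ a ∈ O k, h a ∈ O k
  trans : ∀ k, ∀ a ∈ O k, ∀ b ∈ O k, ∃ h ∈ H, h a = b

/-- The sets of points whose type pattern is a `Q`-translate of `t`. -/
def patternSet {W K J : Type} [NormedAddCommGroup W] (O : K → Set W)
    (Q : Subgroup (Equiv.Perm J)) (t : J → K) : Set (PiLp 2 (fun _ : J => W)) :=
  {z | ∃ σ ∈ Q, ∀ j, z j ∈ O (t (σ⁻¹ j))}

/-- The wreath product of a type system with a soluble permutation group. -/
noncomputable def TypeSys.wr {W K J : Type} [NormedAddCommGroup W] [Fintype J] (S : TypeSys W K)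
    (Q : Subgroup (Equiv.Perm J)) (hQ : Group.IsSolvable Q) :
    TypeSys (PiLp 2 (fun _ : J => W)) (J → K) where
  H := wreath S.H Q
  solv := by
    have := S.solv
    exact isSolvable_wreath S.H Q
  O := patternSet S.O Q
  fin := by
    intro t
    have h1 : ({z : J → W | ∀ j, z j ∈ ⋃ j', S.O (t j')}).Finite :=
      Set.Finite.pi' fun j => Set.finite_iUnion fun j' => S.fin _
    refine (h1.preimage (f := fun z : PiLp 2 (fun _ : J => W) => (z : J → W)) ?_).subset ?_
    · intro z _ z' _ h
      ext j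
      exact congrFun h j
    · rintro z ⟨σ, _, hz⟩
      intro j
      exact Set.mem_iUnion.2 ⟨σ⁻¹ j, hz j⟩
  inv := by
    intro t g hg y hy
    obtain ⟨h, hh, τ, hτ, rfl⟩ := mem_wreath hg
    obtain ⟨σ, hσ, hy⟩ := hy
    refine ⟨τ * σ, Q.mul_mem hτ hσ, fun j => ?_⟩
    rw [wr_apply, mul_inv_rev]
    exact S.inv _ _ (hh j) _ (hy (τ⁻¹ j))
  trans := by
    rintro t y ⟨σ, hσ, hy⟩ z ⟨σ', hσ', hz⟩
    have key : ∀ j, ∃ h ∈ S.H, h (y ((σ' * σ⁻¹)⁻¹ j)) = z j := by
      intro j
      refine S.trans _ _ ?_ _ (hz j)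
      have := hy ((σ' * σ⁻¹)⁻¹ j)
      rwa [mul_inv_rev, inv_inv, ← Equiv.Perm.mul_apply, inv_mul_cancel_left] at this
    choose h hh hhz using key
    refine ⟨Pool.Agent.W_MP_955314_co.wr h (σ' * σ⁻¹),
      wr_mem hh (Q.mul_mem hσ' (Q.inv_mem hσ)), ?_⟩
    ext j
    rw [wr_apply, hhz]

theorem isSolvable_zpowers {G : Type*} [Group G] (g : G) :
    Group.IsSolvable (Subgroup.zpowers g) := by
  apply Group.isSolvable_of_comm
  intro a b
  exact (Subgroup.zpowers_isMulCommutative g).is_comm.comm a b

/-- The type system of the real line with the group `{1, -1}`. -/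
noncomputable def lineSys : TypeSys ℝ ℝ where
  H := Subgroup.zpowers (IsometryEquiv.neg ℝ)
  solv := isSolvable_zpowers _
  O := fun r => {r, -r}
  fin := fun r => by simp
  inv := by
    intro r h hh a ha
    obtain ⟨n, rfl⟩ := Subgroup.mem_zpowers_iff.1 hh
    have h2 : (IsometryEquiv.neg ℝ) ^ (2 : ℕ) = 1 := by
      apply IsometryEquiv.ext
      intro x
      rw [pow_two, IsometryEquiv.mul_apply]
      simp
    have key : ∀ n : ℤ, (IsometryEquiv.neg ℝ) ^ n = 1 ∨
        (IsometryEquiv.neg ℝ) ^ n = IsometryEquiv.neg ℝ := by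
      intro n
      rcases Int.even_or_odd' n with ⟨m, rfl | rfl⟩
      · left
        rw [zpow_mul]
        norm_cast
        rw [h2, one_zpow]
      · right
        rw [zpow_add, zpow_mul]
        norm_cast
        rw [h2, one_zpow, one_mul, pow_one]
    rcases key n with h | h
    · rw [h]; exact ha
    · rw [h]
      rcases ha with rfl | rfl
      · right; simp
      · left; simp
  trans := by
    intro r a ha b hb
    have hn : (IsometryEquiv.neg ℝ) ∈ Subgroup.zpowers (IsometryEquiv.neg ℝ) :=
      Subgroup.mem_zpowers _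
    rcases ha with rfl | rfl <;> rcases hb with rfl | rfl
    · exact ⟨1, Subgroup.one_mem _, rfl⟩
    · exact ⟨_, hn, by simp⟩
    · exact ⟨_, hn, by simp⟩
    · exact ⟨1, Subgroup.one_mem _, rfl⟩

/-- `f` is a similarity of ratio `r`. -/
def IsSim {X Y : Type*} [PseudoMetricSpace X] [PseudoMetricSpace Y] (r : ℝ) (f : X → Y) : Prop :=
  ∀ x y, dist (f x) (f y) = r * dist x y

theorem IsSim.pi {X W J : Type*} [PseudoMetricSpace X] [NormedAddCommGroup W] [Fintype J]
    {r : ℝ} (hr : 0 ≤ r) {f : J → X → W} (hf : ∀ j, IsSim r (f j)) :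
    IsSim (Real.sqrt (Fintype.card J) * r)
      (fun x => (WithLp.toLp 2 fun j => f j x : PiLp 2 (fun _ : J => W))) := by
  intro x y
  rw [PiLp.dist_eq_of_L2]
  simp only [fun j => hf j x y]
  rw [Finset.sum_const, nsmul_eq_mul, Finset.card_univ, Real.sqrt_mul (by positivity),
    Real.sqrt_sq (mul_nonneg hr dist_nonneg), mul_assoc]

theorem TypeSys.inSolubleSet {n : ℕ} {X : Set (EuclideanSpace ℝ (Fin n))} {W K : Type}
    [NormedAddCommGroup W] [InnerProductSpace ℝ W] [FiniteDimensional ℝ W]
    (S : TypeSys W K) (k : K) {r : ℝ} (hr : 0 < r) {f : EuclideanSpace ℝ (Fin n) → W}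
    (hf : IsSim r f) (hX : ∀ x ∈ X, f x ∈ S.O k) : InSolubleSet X :=
  inSolubleSet_of_abstract S.H S.solv (S.O k) (S.fin k) (S.inv k) (S.trans k) r hr f hf hX

/-- The alternating group on four letters is soluble. -/
theorem isSolvable_alt4 : Group.IsSolvable (alternatingGroup (Fin 4)) := by
  have hcard : Nat.card (Fin 4) = 4 := by simp
  have h1 := alternatingGroup.kleinFour_eq_commutator (α := Fin 4) hcard
  have h2 := alternatingGroup.kleinFour_isKleinFour (α := Fin 4) hcard
  have h3 : Group.IsSolvable (alternatingGroup.kleinFour (Fin 4)) := by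
    apply Group.isSolvable_of_comm
    intro a b
    have := IsKleinFour.isMulCommutative (G := alternatingGroup.kleinFour (Fin 4))
    exact this.is_comm.comm a b
  rw [h1] at h3
  exact Group.isSolvable_of_ker_le_range (commutator (alternatingGroup (Fin 4))).subtype
    (Abelianization.of) (by rw [Abelianization.ker_of]; simp)

/-- The symmetric group on four letters is soluble. -/
theorem isSolvable_perm4 : Group.IsSolvable (Equiv.Perm (Fin 4)) := by
  have := isSolvable_alt4
  exact Group.isSolvable_of_ker_le_range (alternatingGroup (Fin 4)).subtype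
    (Equiv.Perm.sign (α := Fin 4)) (by
      intro σ hσ
      exact ⟨⟨σ, Equiv.Perm.mem_alternatingGroup.2 hσ⟩, rfl⟩)

end Pool.Agent.W_MP_955314_co
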