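import Mathlib
import Pool.Agent.W_MP_955314_co.TypeSys
import Pool.Agent.W_MP_955314_co.Cover120

/-!
The vertex set of the 120-cell is contained in a soluble set.
-/

namespace Pool.Agent.W_MP_955314_co

open scoped Quaternion

instance : Fact (Nat.Prime 5) := ⟨by norm_num⟩

/-- The identification of the quaternions with `ℝ⁴`. -/
noncomputable abbrev eH : ℍ[ℝ] ≃ₗᵢ[ℝ] EuclideanSpace ℝ (Fin 4) :=
  Quaternion.linearIsometryEquivTuple

/-- Powers of an icosian of order five. -/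
noncomputable def Zq (i : ZMod 5) : ℍ[ℝ] := (1 / 4 : ℝ) • (Zm i.val).ev

/-- Powers of a Hurwitz unit of order three. -/
noncomputable def Wq (s : ZMod 3) : ℍ[ℝ] := (1 / 2 : ℝ) • (Wm s.val).ev

theorem Zq_mul (i k : ZMod 5) : Zq i * Zq k = Zq (i + k) := by
  have h : ∀ i k : ZMod 5, Q5.eqb ((Zm i.val).mul (Zm k.val)) ((Zm (i + k).val).smul 4) = true := by
    decide +kernel
  have h1 := congrArg Q5.ev (Q5.eqb_eq (h i k))
  rw [Q5.ev_mul, Q5.ev_smul] at h1
  unfold Zq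
  rw [smul_mul_smul_comm, h1, smul_smul]
  norm_num

theorem norm_Zq (i : ZMod 5) : ‖Zq i‖ = 1 := by
  have h : ∀ i : ZMod 5, Z5.eqb (Zm i.val).nrm ⟨16, 0⟩ = true := by decide +kernel
  have h1 : ‖Zq i‖ ^ 2 = 1 := by
    unfold Zq
    rw [norm_smul, mul_pow, Q5.norm_ev, Z5.eqb_eq (h i)]
    simp only [Z5.ev, Real.norm_eq_abs, sq_abs]
    norm_num
  exact (pow_eq_one_iff_of_nonneg (norm_nonneg _) two_ne_zero).1 h1

theorem norm_Wq (i : ZMod 3) : ‖Wq i‖ = 1 := by
  have h : ∀ i : ZMod 3, Z5.eqb (Wm i.val).nrm ⟨4, 0⟩ = true := by decide +kernel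
  have h1 : ‖Wq i‖ ^ 2 = 1 := by
    unfold Wq
    rw [norm_smul, mul_pow, Q5.norm_ev, Z5.eqb_eq (h i)]
    simp only [Z5.ev, Real.norm_eq_abs, sq_abs]
    norm_num
  exact (pow_eq_one_iff_of_nonneg (norm_nonneg _) two_ne_zero).1 h1

/-- The first type system: `ℝ⁴` with the group of signed permutations. -/
noncomputable def S1 : TypeSys (PiLp 2 (fun _ : Fin 4 => ℝ)) (Fin 4 → ℝ) :=
  lineSys.wr (⊤ : Subgroup (Equiv.Perm (Fin 4))) (by
    have := isSolvable_perm4
    infer_instance)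

/-- The second type system, for the triples. -/
noncomputable def S2 : TypeSys (PiLp 2 (fun _ : ZMod 3 => PiLp 2 (fun _ : Fin 4 => ℝ)))
    (ZMod 3 → Fin 4 → ℝ) :=
  S1.wr (affSubgroup (ZMod 3)) (isSolvable_aff _)

/-- The real type of a model vector. -/
noncomputable def rt (v : Q5) : Fin 4 → ℝ := fun p => (v.co p).ev / 2

theorem typ_mem {y v : Q5} (h : isType y (v.smul 32) = true) :
    eH ((1 / 64 : ℝ) • y.ev) ∈ S1.O (rt v) := by
  obtain ⟨π, hπ⟩ := isType_ev h
  refine ⟨π⁻¹, Subgroup.mem_top _, fun p => ?_⟩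
  have h1 : ∀ q : Fin 4, ((v.smul 32).co q).ev = 32 * (v.co q).ev := by
    intro q
    fin_cases q <;> simp [Q5.co, Q5.smul, Z5.ev_smul]
  have h2 : (eH ((1 / 64 : ℝ) • y.ev)) p = (1 / 64) * (y.co p).ev := by
    rw [map_smul]
    change (1 / 64 : ℝ) * (eH y.ev) p = _
    rw [show (eH y.ev) p = (y.co p).ev from qc_ev y p]
  change _ = rt v (π⁻¹⁻¹ p) ∨ _ = - rt v (π⁻¹⁻¹ p)
  rw [h2, inv_inv]
  unfold rt
  rcases hπ p with h3 | h3
  · left; rw [h3, h1]; ring
  · right; rw [h3, h1]; ring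

/-- The real type of a family of model vectors. -/
noncomputable def rT (τ : ℕ → Q5) : ZMod 3 → Fin 4 → ℝ := fun z => rt (τ z.val)

theorem exists_aff_inv {F : Type*} [Field F] (u c : F) (hu : u ≠ 0) :
    ∃ σ ∈ affSubgroup F, ∀ x, σ⁻¹ x = u * x + c := by
  refine ⟨(⟨fun x => u * x + c, fun x => u⁻¹ * (x - c), fun x => ?_, fun x => ?_⟩ :
    Equiv.Perm F)⁻¹, Subgroup.inv_mem _ ?_, fun x => ?_⟩
  · simp only
    rw [add_sub_cancel_right, inv_mul_cancel_left₀ hu]
  · simp only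
    rw [mul_inv_cancel_left₀ hu, sub_add_cancel]
  · intro x y
    simp only [Equiv.coe_fn_mk]
    ring
  · rw [inv_inv]; rfl

/-- The triple of a quaternion. -/
noncomputable def triple (x : ℍ[ℝ]) : PiLp 2 (fun _ : ZMod 3 => PiLp 2 (fun _ : Fin 4 => ℝ)) :=
  WithLp.toLp 2 fun s => eH (Wq s * x)

theorem chkT_mem {τ : ℕ → Q5} {y : Q5} (h : chkT τ y = true) :
    triple ((1 / 32 : ℝ) • y.ev) ∈ S2.O (rT τ) := by
  simp only [chkT, List.any_eq_true, List.all_eq_true] at h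
  obtain ⟨u, hu, c, hc, h⟩ := h
  have hu0 : (u : ZMod 3) ≠ 0 := by
    simp only [List.mem_cons, List.not_mem_nil, or_false] at hu
    rcases hu with rfl | rfl <;> decide
  obtain ⟨σ, hσ, hσ'⟩ := exists_aff_inv (u : ZMod 3) (c : ZMod 3) hu0
  refine ⟨σ, hσ, fun s => ?_⟩
  have hs : s.val ∈ [0, 1, 2] := by
    have := s.val_lt
    simp only [List.mem_cons, List.not_mem_nil, or_false]
    omega
  have h1 := typ_mem (h s.val hs)
  have h2 : (σ⁻¹ s).val = (u * s.val + c) % 3 := by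
    rw [hσ']
    have : (u : ZMod 3) * s + c = ((u * s.val + c : ℕ) : ZMod 3) := by
      push_cast
      rw [ZMod.natCast_zmod_val]
    rw [this, ZMod.val_natCast]
  change eH (Wq s * ((1 / 32 : ℝ) • y.ev)) ∈ S1.O (rt (τ (σ⁻¹ s).val))
  rw [h2]
  have h3 : Wq s * ((1 / 32 : ℝ) • y.ev) = (1 / 64 : ℝ) • ((Wm s.val).mul y).ev := by
    unfold Wq
    rw [smul_mul_smul_comm, Q5.ev_mul]
    norm_num
  rw [h3]
  exact h1

/-- The type of the cell `(i, j)` of a marked permutation matrix. -/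
noncomputable def cellT (β : Equiv.Perm (ZMod 5)) (i₀ i j : ZMod 5) : ZMod 3 → Fin 4 → ℝ :=
  if j = β i then (if i = i₀ then rT tA else rT tP)
  else if i = i₀ ∨ j = β i₀ then rT tR else rT tN

theorem base_cell : ∀ ab ∈ LA, ∃ β : Equiv.Perm (ZMod 5), ∀ i j : ZMod 5,
    triple (Zq i * ((1 / 2 : ℝ) • ab.1.ev) * Zq j) ∈ S2.O (cellT β 0 i j) := by
  intro ab hab
  have hinj : ∀ ab ∈ LA, Function.Injective
      (fun i : ZMod 5 => ((ab.2.getD i.val 0 : ℕ) : ZMod 5)) := by decide +kernel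
  have hval : ∀ ab ∈ LA, ∀ i j : ZMod 5, (ab.2.getD i.val 0 = j.val) ↔
      (((ab.2.getD i.val 0 : ℕ) : ZMod 5) = j) := by decide +kernel
  have hzero : ∀ ab ∈ LA, ((ab.2.getD 0 0 : ℕ) : ZMod 5) = 0 := by decide +kernel
  have hchk := chkBase_LA
  simp only [chkBase, List.all_eq_true] at hchk
  refine ⟨Equiv.ofBijective _ (Finite.injective_iff_bijective.1 (hinj ab hab)), ?_⟩
  intro i j
  have hmem : ∀ i : ZMod 5, i.val ∈ [0, 1, 2, 3, 4] := by
    intro i
    have := i.val_lt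
    simp only [List.mem_cons, List.not_mem_nil, or_false]
    omega
  have h1 := hchk ab hab i.val (hmem i) j.val (hmem j)
  have h2 : Zq i * ((1 / 2 : ℝ) • ab.1.ev) * Zq j =
      (1 / 32 : ℝ) • ((Zm i.val).mul (ab.1.mul (Zm j.val))).ev := by
    unfold Zq
    rw [smul_mul_smul_comm, smul_mul_smul_comm, Q5.ev_mul, Q5.ev_mul, ← mul_assoc]
    norm_num
  rw [h2]
  unfold chkCell at h1
  unfold cellT
  simp only [Equiv.ofBijective_apply]
  have hi0 : i.val = 0 ↔ i = 0 := ZMod.val_eq_zero i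
  have hj0 : j.val = 0 ↔ j = 0 := ZMod.val_eq_zero j
  have hβ0 : ((ab.2.getD (0 : ZMod 5).val 0 : ℕ) : ZMod 5) = 0 := hzero ab hab
  rw [hβ0]
  have hinj' := hinj ab hab
  by_cases hi : i = 0
  · subst hi
    rw [hβ0]
    by_cases hj : j = 0
    · subst hj
      simp only [ZMod.val_zero, if_true] at h1
      rw [if_pos rfl, if_pos rfl]
      exact chkT_mem h1
    · rw [if_neg hj, if_pos (Or.inl rfl)]
      rw [if_pos (hi0.2 rfl), if_neg (fun h => hj (hj0.1 h))] at h1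
      exact chkT_mem h1
  · rw [if_neg (fun h => hi (hi0.1 h))] at h1
    have hβi : ((ab.2.getD i.val 0 : ℕ) : ZMod 5) ≠ 0 := by
      intro h
      apply hi
      apply hinj'
      simp only
      rw [h, hβ0]
    by_cases hj : j = 0
    · subst hj
      rw [if_neg (fun h => hβi h.symm), if_pos (Or.inr rfl)]
      rw [if_pos (hj0.2 rfl)] at h1
      exact chkT_mem h1
    · rw [if_neg (fun h => hj (hj0.1 h))] at h1
      by_cases hji : j = ((ab.2.getD i.val 0 : ℕ) : ZMod 5)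
      · rw [if_pos ((hval ab hab i j).2 hji.symm)] at h1
        rw [if_pos hji, if_neg hi]
        exact chkT_mem h1
      · rw [if_neg (fun h => hji ((hval ab hab i j).1 h).symm)] at h1
        rw [if_neg hji, if_neg (by push Not; exact ⟨hi, hj⟩)]
        exact chkT_mem h1

/-- The 120-cell, in the form of model vectors. -/
theorem cell_of_all120 {y : Q5} (hy : y ∈ all120) : ∃ (β : Equiv.Perm (ZMod 5)) (i₀ : ZMod 5),
    ∀ i j : ZMod 5, triple (Zq i * ((1 / 2 : ℝ) • y.ev) * Zq j) ∈ S2.O (cellT β i₀ i j) := by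
  obtain ⟨k, hk, l, hl, ab, hab, h⟩ := cover120 hy
  obtain ⟨β, hβ⟩ := base_cell ab hab
  set k' : ZMod 5 := (k : ZMod 5) with hk'
  set l' : ZMod 5 := (l : ZMod 5) with hl'
  have hkv : k'.val = k := ZMod.val_natCast_of_lt hk
  have hlv : l'.val = l := ZMod.val_natCast_of_lt hl
  have hE : Zq k' * ((1 / 2 : ℝ) • y.ev) * Zq l' = (1 / 2 : ℝ) • ab.1.ev := by
    have h1 := congrArg Q5.ev h
    rw [Q5.ev_mul, Q5.ev_mul, Q5.ev_smul, ← mul_assoc] at h1
    unfold Zq
    rw [smul_mul_smul_comm, smul_mul_smul_comm, hkv, hlv, h1, smul_smul]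
    norm_num
  refine ⟨(Equiv.subRight k').trans (β.trans (Equiv.addRight l')), k', fun i j => ?_⟩
  have h2 := hβ (i - k') (j - l')
  have h3 : Zq (i - k') * ((1 / 2 : ℝ) • ab.1.ev) * Zq (j - l') =
      Zq i * ((1 / 2 : ℝ) • y.ev) * Zq j := by
    rw [← hE]
    have e1 : Zq (i - k') * Zq k' = Zq i := by rw [Zq_mul, sub_add_cancel]
    have e2 : Zq l' * Zq (j - l') = Zq j := by rw [Zq_mul, add_sub_cancel]
    rw [← e1, ← e2]
    simp only [mul_assoc]
  rw [h3] at h2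
  have h4 : cellT ((Equiv.subRight k').trans (β.trans (Equiv.addRight l'))) k' i j =
      cellT β 0 (i - k') (j - l') := by
    unfold cellT
    simp only [Equiv.trans_apply, Equiv.subRight_apply, Equiv.coe_addRight, sub_self,
      sub_eq_iff_eq_add, zero_add]
  rw [h4]
  exact h2

/-- Change of base of a marked permutation matrix. -/
theorem cellT_change (β a b : Equiv.Perm (ZMod 5)) (i₀ i₁ : ZMod 5) (hb : b = β * a)
    (ha : a i₁ = i₀) (i j : ZMod 5) : cellT β i₀ i j = cellT 1 i₁ (a⁻¹ i) (b⁻¹ j) := by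
  have e1 : (b⁻¹ j = a⁻¹ i) ↔ j = β i := by
    rw [hb, mul_inv_rev, Equiv.Perm.mul_apply]
    constructor
    · intro h
      have := a⁻¹.injective h
      rw [← this]
      exact (β.apply_symm_apply j).symm
    · rintro rfl
      congr 1
      exact β.symm_apply_apply i
  have e2 : (a⁻¹ i = i₁) ↔ i = i₀ := by
    rw [← ha]
    constructor
    · rintro rfl; exact (a.apply_symm_apply i).symm
    · rintro rfl; exact a.symm_apply_apply i₁
  have e3 : (b⁻¹ j = i₁) ↔ j = β i₀ := by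
    rw [← ha]
    constructor
    · intro h
      rw [← h]
      have : β (a (b⁻¹ j)) = b (b⁻¹ j) := by rw [hb]; rfl
      rw [this]
      exact (b.apply_symm_apply j).symm
    · rintro rfl
      have : β (a i₁) = b i₁ := by rw [hb]; rfl
      rw [this]
      exact b.symm_apply_apply i₁
  unfold cellT
  simp only [Equiv.Perm.one_apply, e1, e2, e3]

/-- The soluble group of permutations of the rows and columns. -/
noncomputable def gridHom :
    affSubgroup (ZMod 5) × Equiv.Perm {x : ZMod 5 // x ≠ 0} →* Equiv.Perm (ZMod 5 × ZMod 5) where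
  toFun ab := Equiv.prodCongr (ab.1 : Equiv.Perm (ZMod 5)) (Equiv.Perm.ofSubtype ab.2)
  map_one' := by
    ext x <;> simp
  map_mul' ab cd := by
    ext x <;> simp

noncomputable def gridGroup : Subgroup (Equiv.Perm (ZMod 5 × ZMod 5)) := gridHom.range

theorem isSolvable_grid : Group.IsSolvable gridGroup := by
  have h1 := isSolvable_aff (ZMod 5)
  have h2 : Group.IsSolvable (Equiv.Perm {x : ZMod 5 // x ≠ 0}) := by
    have h3 := isSolvable_perm4
    have e : Fin 4 ≃ {x : ZMod 5 // x ≠ 0} :=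
      Fintype.equivOfCardEq (by decide)
    exact Group.isSolvable_of_surjective (f := (Equiv.permCongrHom e).toMonoidHom)
      (Equiv.permCongrHom e).surjective
  exact Group.isSolvable_of_surjective gridHom.rangeRestrict_surjective

theorem mem_grid {a b : Equiv.Perm (ZMod 5)} (ha : a ∈ affSubgroup (ZMod 5)) (hb : b 0 = 0) :
    (Equiv.prodCongr a b : Equiv.Perm (ZMod 5 × ZMod 5)) ∈ gridGroup := by
  have h1 : ∀ x, x ≠ 0 ↔ b x ≠ 0 := by
    intro x
    rw [not_iff_not]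
    constructor
    · rintro rfl; exact hb
    · intro h
      apply b.injective
      rw [h, hb]
  refine ⟨(⟨a, ha⟩, b.subtypePerm (fun x => (h1 x).symm)), ?_⟩
  change Equiv.prodCongr a (Equiv.Perm.ofSubtype (b.subtypePerm (fun x => (h1 x).symm))) = _
  rw [Equiv.Perm.ofSubtype_subtypePerm]
  intro x hx
  rintro rfl
  exact hx hb

/-- The type of a block. -/
noncomputable def blockT (i₁ : ZMod 5) : ZMod 5 × ZMod 5 → ZMod 3 → Fin 4 → ℝ :=
  fun q => cellT 1 i₁ q.1 q.2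

noncomputable def S3 := S2.wr gridGroup isSolvable_grid

noncomputable def S4 := S3.wr (affSubgroup (ZMod 5)) (isSolvable_aff _)

noncomputable def grid (x : ℍ[ℝ]) (m : ZMod 5) :=
  (WithLp.toLp 2 fun q : ZMod 5 × ZMod 5 => triple (Zq q.1 * x * Zq (q.2 + m)) :
    PiLp 2 (fun _ : ZMod 5 × ZMod 5 => PiLp 2 (fun _ : ZMod 3 => PiLp 2 (fun _ : Fin 4 => ℝ))))

theorem block_mem {x : ℍ[ℝ]} {β : Equiv.Perm (ZMod 5)} {i₀ : ZMod 5}
    (h : ∀ i j : ZMod 5, triple (Zq i * x * Zq j) ∈ S2.O (cellT β i₀ i j)) (m : ZMod 5) :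
    grid x m ∈ S3.O (if β i₀ = m then blockT 0 else blockT 1) := by
  set β' : Equiv.Perm (ZMod 5) := β.trans (Equiv.subRight m) with hβ'
  have hc : ∀ i j, cellT β i₀ i (j + m) = cellT β' i₀ i j := by
    intro i j
    unfold cellT
    simp only [hβ', Equiv.trans_apply, Equiv.subRight_apply, eq_sub_iff_add_eq]
  have h' : ∀ i j : ZMod 5, triple (Zq i * x * Zq (j + m)) ∈ S2.O (cellT β' i₀ i j) := by
    intro i j
    rw [← hc]
    exact h i (j + m)
  have hβ0 : β i₀ = m ↔ β' i₀ = 0 := by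
    simp only [hβ', Equiv.trans_apply, Equiv.subRight_apply, sub_eq_zero]
  by_cases hm : β i₀ = m
  · rw [if_pos hm]
    obtain ⟨a, ha, ha'⟩ := exists_aff_inv (F := ZMod 5) 1 (-i₀) one_ne_zero
    have ha0 : a 0 = i₀ := by
      have : a⁻¹ i₀ = 0 := by rw [ha']; ring
      rw [← this]
      exact a.apply_symm_apply i₀
    refine ⟨Equiv.prodCongr a (β' * a), mem_grid ha ?_, ?_⟩
    · rw [Equiv.Perm.mul_apply, ha0]
      exact hβ0.1 hm
    · rintro ⟨i, j⟩
      have := h' i j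
      rw [cellT_change β' a (β' * a) i₀ 0 rfl ha0] at this
      exact this
  · rw [if_neg hm]
    have hne : β'⁻¹ 0 ≠ i₀ := by
      intro h
      apply hm
      rw [hβ0, ← h]
      exact β'.apply_symm_apply 0
    obtain ⟨a, ha, ha0, ha1⟩ := exists_aff (β'⁻¹ 0) i₀ hne
    have ha0' : a 0 = β'⁻¹ 0 := by
      have : a (a⁻¹ (β'⁻¹ 0)) = β'⁻¹ 0 := a.apply_symm_apply _
      rw [ha0] at this
      exact this
    have ha1' : a 1 = i₀ := by
      have : a (a⁻¹ i₀) = i₀ := a.apply_symm_apply _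
      rw [ha1] at this
      exact this
    refine ⟨Equiv.prodCongr a (β' * a), mem_grid ha ?_, ?_⟩
    · rw [Equiv.Perm.mul_apply, ha0']
      exact β'.apply_symm_apply 0
    · rintro ⟨i, j⟩
      have := h' i j
      rw [cellT_change β' a (β' * a) i₀ 1 rfl ha1'] at this
      exact this

noncomputable def topT : ZMod 5 → ZMod 5 × ZMod 5 → ZMod 3 → Fin 4 → ℝ :=
  fun m => if m = 0 then blockT 0 else blockT 1

theorem top_mem {x : ℍ[ℝ]} {β : Equiv.Perm (ZMod 5)} {i₀ : ZMod 5}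
    (h : ∀ i j : ZMod 5, triple (Zq i * x * Zq j) ∈ S2.O (cellT β i₀ i j)) :
    (WithLp.toLp 2 fun m : ZMod 5 => grid x m) ∈ S4.O topT := by
  obtain ⟨σ, hσ, hσ'⟩ := exists_aff_inv (F := ZMod 5) 1 (-(β i₀)) one_ne_zero
  refine ⟨σ, hσ, fun m => ?_⟩
  have := block_mem h m
  have h1 : topT (σ⁻¹ m) = if β i₀ = m then blockT 0 else blockT 1 := by
    unfold topT
    rw [hσ']
    have : (1 * m + -(β i₀) = 0) ↔ β i₀ = m := by
      rw [one_mul, ← sub_eq_add_neg, sub_eq_zero, eq_comm]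
    simp only [this]
  rw [h1]
  exact this

/-- The embedding. -/
noncomputable def emb (x : EuclideanSpace ℝ (Fin 4)) :=
  (WithLp.toLp 2 fun m : ZMod 5 => grid (eH.symm x) m :
    PiLp 2 (fun _ : ZMod 5 => PiLp 2 (fun _ : ZMod 5 × ZMod 5 =>
      PiLp 2 (fun _ : ZMod 3 => PiLp 2 (fun _ : Fin 4 => ℝ)))))

theorem emb_sim : ∃ r : ℝ, 0 < r ∧ IsSim r emb := by
  have h0 : ∀ (m : ZMod 5) (q : ZMod 5 × ZMod 5) (s : ZMod 3),
      IsSim 1 (fun x : EuclideanSpace ℝ (Fin 4) =>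
        eH (Wq s * (Zq q.1 * eH.symm x * Zq (q.2 + m)))) := by
    intro m q s x y
    rw [LinearIsometryEquiv.dist_map, dist_eq_norm, ← mul_sub, ← sub_mul, ← mul_sub, norm_mul,
      norm_mul, norm_mul, norm_Wq, norm_Zq, norm_Zq, ← map_sub, LinearIsometryEquiv.norm_map,
      dist_eq_norm]
    ring
  have h1 := fun m => IsSim.pi (by positivity) (fun q => IsSim.pi zero_le_one (h0 m q))
  have h2 := IsSim.pi (by positivity) h1
  exact ⟨_, by positivity, h2⟩

end Pool.Agent.W_MP_955314_co
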