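import Mathlib
import Pool.Agent.W_MP_955314_co.Defs

/-!
The vertex sets of the 600-cell and of the 120-cell.
-/

namespace Pool.Agent.W_MP_955314_co

/-- The points of `ℝ⁴` whose coordinates are, up to signs, a permutation of those of `w`. -/
def AllPerms (w : Fin 4 → ℝ) : Set (EuclideanSpace ℝ (Fin 4)) :=
  {x | ∃ π : Equiv.Perm (Fin 4), ∀ p, |x p| = w (π p)}

/-- The points of `ℝ⁴` whose coordinates are, up to signs, an even permutation of those of `w`. -/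
def EvenPerms (w : Fin 4 → ℝ) : Set (EuclideanSpace ℝ (Fin 4)) :=
  {x | ∃ π : Equiv.Perm (Fin 4), Equiv.Perm.sign π = 1 ∧ ∀ p, |x p| = w (π p)}

/-- The `120` vertices of the 600-cell: all permutations of `(±1, 0, 0, 0)`, the points
`(±1/2, ±1/2, ±1/2, ±1/2)` and all even permutations of `(±φ/2, ±1/2, ±1/(2φ), 0)`, where `φ` is
the golden ratio. -/
noncomputable def vertices600 : Set (EuclideanSpace ℝ (Fin 4)) :=
  AllPerms ![1, 0, 0, 0] ∪ AllPerms ![1 / 2, 1 / 2, 1 / 2, 1 / 2] ∪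
    EvenPerms ![Real.goldenRatio / 2, 1 / 2, 1 / (2 * Real.goldenRatio), 0]

/-- The `600` vertices of the 120-cell: all permutations of `(0, 0, ±2, ±2)`, `(±1, ±1, ±1, ±√5)`,
`(±1/φ², ±φ, ±φ, ±φ)` and `(±1/φ, ±1/φ, ±1/φ, ±φ²)`, and all even permutations of
`(0, ±1/φ², ±1, ±φ²)`, `(0, ±1/φ, ±φ, ±√5)` and `(±1/φ, ±1, ±φ, ±2)`. -/
noncomputable def vertices120 : Set (EuclideanSpace ℝ (Fin 4)) :=
  AllPerms ![0, 0, 2, 2] ∪ AllPerms ![1, 1, 1, Real.sqrt 5] ∪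
    AllPerms ![1 / Real.goldenRatio ^ 2, Real.goldenRatio, Real.goldenRatio, Real.goldenRatio] ∪
    AllPerms ![1 / Real.goldenRatio, 1 / Real.goldenRatio, 1 / Real.goldenRatio,
      Real.goldenRatio ^ 2] ∪
    EvenPerms ![0, 1 / Real.goldenRatio ^ 2, 1, Real.goldenRatio ^ 2] ∪
    EvenPerms ![0, 1 / Real.goldenRatio, Real.goldenRatio, Real.sqrt 5] ∪
    EvenPerms ![1 / Real.goldenRatio, 1, Real.goldenRatio, 2]

end Pool.Agent.W_MP_955314_co
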