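import Mathlib
import Pool.Agent.W_MP_955314_co.CellDefs
import Pool.Agent.W_MP_955314_co.Cell120

namespace Pool.Agent.W_MP_955314_co

open scoped Quaternion

theorem signed_eq (t w : ℝ) (h : |t| = w) : t = if t < 0 then -w else w := by
  subst h
  split
  · rename_i h; rw [abs_of_neg h, neg_neg]
  · rename_i h; rw [abs_of_nonneg (not_lt.1 h)]

/-- The real coordinates of `mkVec`. -/
theorem mkVec_ev (c : ℝ) (v : Q5) (x : EuclideanSpace ℝ (Fin 4)) (π : Equiv.Perm (Fin 4))
    (h : ∀ p, |x p| = c * (v.co (π p)).ev) :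
    eH.symm x = c • (mkVec v (π 0, π 1, π 2, π 3)
      (decide (x 0 < 0), decide (x 1 < 0), decide (x 2 < 0), decide (x 3 < 0))).ev := by
  have key : ∀ p : Fin 4, x p = c * (if decide (x p < 0) = true then (v.co (π p)).neg
      else v.co (π p)).ev := by
    intro p
    conv_lhs => rw [signed_eq (x p) _ (h p)]
    by_cases hp : x p < 0
    · simp only [hp, if_true, decide_true, Z5.ev_neg]; ring
    · simp only [hp, if_false, decide_false]
      rfl
  apply QuaternionAlgebra.ext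
  · rw [Quaternion.re_smul]; exact key 0
  · rw [Quaternion.imI_smul]; exact key 1
  · rw [Quaternion.imJ_smul]; exact key 2
  · rw [Quaternion.imK_smul]; exact key 3

theorem phi_val : Real.goldenRatio = (1 / 2 : ℝ) * (⟨1, 1⟩ : Z5).ev := by
  unfold Real.goldenRatio Z5.ev; push_cast; ring

theorem sqrt5_mul : Real.sqrt 5 * Real.sqrt 5 = 5 := Real.mul_self_sqrt (by norm_num)

theorem phi_inv_val : 1 / Real.goldenRatio = (1 / 2 : ℝ) * (⟨-1, 1⟩ : Z5).ev := by
  have h : Real.goldenRatio ≠ 0 := Real.goldenRatio_ne_zero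
  rw [div_eq_iff h]
  unfold Real.goldenRatio Z5.ev; push_cast
  linear_combination (-1 / 4 : ℝ) * sqrt5_mul

theorem phi_sq_val : Real.goldenRatio ^ 2 = (1 / 2 : ℝ) * (⟨3, 1⟩ : Z5).ev := by
  unfold Real.goldenRatio Z5.ev; push_cast
  linear_combination (1 / 4 : ℝ) * sqrt5_mul

theorem phi_inv_sq_val : 1 / Real.goldenRatio ^ 2 = (1 / 2 : ℝ) * (⟨3, -1⟩ : Z5).ev := by
  have h : Real.goldenRatio ^ 2 ≠ 0 := pow_ne_zero _ Real.goldenRatio_ne_zero
  rw [div_eq_iff h, phi_sq_val]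
  unfold Z5.ev; push_cast
  linear_combination (1 / 4 : ℝ) * sqrt5_mul

theorem all_mem {w : Fin 4 → ℝ} {v : Q5} (hw : ∀ p, w p = (1 / 2 : ℝ) * (v.co p).ev)
    {x : EuclideanSpace ℝ (Fin 4)} (hx : x ∈ AllPerms w) :
    ∃ y ∈ vecs v P24, eH.symm x = (1 / 2 : ℝ) • y.ev := by
  obtain ⟨π, hπ⟩ := hx
  exact ⟨_, mem_vecs (mem_P24 π) _ _ _ _, mkVec_ev _ v x π fun p => by rw [hπ, hw]⟩

theorem even_mem {w : Fin 4 → ℝ} {v : Q5} (hw : ∀ p, w p = (1 / 2 : ℝ) * (v.co p).ev)
    {x : EuclideanSpace ℝ (Fin 4)} (hx : x ∈ EvenPerms w) :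
    ∃ y ∈ vecs v P12, eH.symm x = (1 / 2 : ℝ) • y.ev := by
  obtain ⟨π, hs, hπ⟩ := hx
  exact ⟨_, mem_vecs (mem_P12 π hs) _ _ _ _, mkVec_ev _ v x π fun p => by rw [hπ, hw]⟩

theorem mem_all120 {x : EuclideanSpace ℝ (Fin 4)} (hx : x ∈ vertices120) :
    ∃ y ∈ all120, eH.symm x = (1 / 2 : ℝ) • y.ev := by
  have e0 : (0 : ℝ) = (1 / 2 : ℝ) * (⟨0, 0⟩ : Z5).ev := by unfold Z5.ev; push_cast; ring
  have e1 : (1 : ℝ) = (1 / 2 : ℝ) * (⟨2, 0⟩ : Z5).ev := by unfold Z5.ev; push_cast; ring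
  have e2 : (2 : ℝ) = (1 / 2 : ℝ) * (⟨4, 0⟩ : Z5).ev := by unfold Z5.ev; push_cast; ring
  have e5 : Real.sqrt 5 = (1 / 2 : ℝ) * (⟨0, 2⟩ : Z5).ev := by unfold Z5.ev; push_cast; ring
  rcases hx with (((((h | h) | h) | h) | h) | h) | h
  · obtain ⟨y, hy, he⟩ := all_mem (v := vA) (fun p => by fin_cases p <;> first | exact e0 | exact e2) h
    exact ⟨y, by simp only [all120, List.mem_append]; tauto, he⟩
  · obtain ⟨y, hy, he⟩ := all_mem (v := vB) (fun p => by fin_cases p <;> first | exact e1 | exact e5) h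
    exact ⟨y, by simp only [all120, List.mem_append]; tauto, he⟩
  · obtain ⟨y, hy, he⟩ := all_mem (v := vC)
      (fun p => by fin_cases p <;> first | exact phi_inv_sq_val | exact phi_val) h
    exact ⟨y, by simp only [all120, List.mem_append]; tauto, he⟩
  · obtain ⟨y, hy, he⟩ := all_mem (v := vD)
      (fun p => by fin_cases p <;> first | exact phi_inv_val | exact phi_sq_val) h
    exact ⟨y, by simp only [all120, List.mem_append]; tauto, he⟩
  · obtain ⟨y, hy, he⟩ := even_mem (v := vE)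
      (fun p => by fin_cases p <;>
        first | exact e0 | exact e1 | exact phi_inv_sq_val | exact phi_sq_val) h
    exact ⟨y, by simp only [all120, List.mem_append]; tauto, he⟩
  · obtain ⟨y, hy, he⟩ := even_mem (v := vF)
      (fun p => by fin_cases p <;>
        first | exact e0 | exact e5 | exact phi_inv_val | exact phi_val) h
    exact ⟨y, by simp only [all120, List.mem_append]; tauto, he⟩
  · obtain ⟨y, hy, he⟩ := even_mem (v := vG)
      (fun p => by fin_cases p <;>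
        first | exact e1 | exact e2 | exact phi_inv_val | exact phi_val) h
    exact ⟨y, by simp only [all120, List.mem_append]; tauto, he⟩

theorem vertices120_inSolubleSet : InSolubleSet vertices120 := by
  obtain ⟨r, hr, hsim⟩ := emb_sim
  refine TypeSys.inSolubleSet S4 topT hr hsim ?_
  intro x hx
  obtain ⟨y, hy, he⟩ := mem_all120 hx
  obtain ⟨β, i₀, h⟩ := cell_of_all120 hy
  unfold emb
  rw [he]
  exact top_mem h

end Pool.Agent.W_MP_955314_co
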