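import Mathlib
import Pool.Agent.W_MP_955314_co.Comp600
import Pool.Agent.W_MP_955314_co.Final120

/-!
The vertex set of the 600-cell is contained in a soluble set.
-/

namespace Pool.Agent.W_MP_955314_co

open scoped Quaternion

noncomputable def Zq6 (i : ZMod 5) : ℍ[ℝ] := (1 / 4 : ℝ) • (Zm6 i.val).ev

theorem Zq6_mul (i k : ZMod 5) : Zq6 i * Zq6 k = Zq6 (i + k) := by
  have h : ∀ i k : ZMod 5,
      Q5.eqb ((Zm6 i.val).mul (Zm6 k.val)) ((Zm6 (i + k).val).smul 4) = true := by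
    decide +kernel
  have h1 := congrArg Q5.ev (Q5.eqb_eq (h i k))
  rw [Q5.ev_mul, Q5.ev_smul] at h1
  unfold Zq6
  rw [smul_mul_smul_comm, h1, smul_smul]
  norm_num

theorem norm_Zq6 (i : ZMod 5) : ‖Zq6 i‖ = 1 := by
  have h : ∀ i : ZMod 5, Z5.eqb (Zm6 i.val).nrm ⟨16, 0⟩ = true := by decide +kernel
  have h1 : ‖Zq6 i‖ ^ 2 = 1 := by
    unfold Zq6
    rw [norm_smul, mul_pow, Q5.norm_ev, Z5.eqb_eq (h i)]
    simp only [Z5.ev, Real.norm_eq_abs, sq_abs]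
    norm_num
  exact (pow_eq_one_iff_of_nonneg (norm_nonneg _) two_ne_zero).1 h1

noncomputable def rt6 (v : Q5) : Fin 4 → ℝ := fun p => (v.co p).ev / 4

theorem typ_mem6 {y v : Q5} (h : isType y (v.smul 8) = true) :
    eH ((1 / 32 : ℝ) • y.ev) ∈ S1.O (rt6 v) := by
  obtain ⟨π, hπ⟩ := isType_ev h
  refine ⟨π⁻¹, Subgroup.mem_top _, fun p => ?_⟩
  have h1 : ∀ q : Fin 4, ((v.smul 8).co q).ev = 8 * (v.co q).ev := by
    intro q
    fin_cases q <;> simp [Q5.co, Q5.smul, Z5.ev_smul]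
  have h2 : (eH ((1 / 32 : ℝ) • y.ev)) p = (1 / 32) * (y.co p).ev := by
    rw [map_smul]
    change (1 / 32 : ℝ) * (eH y.ev) p = _
    rw [show (eH y.ev) p = (y.co p).ev from qc_ev y p]
  change _ = rt6 v (π⁻¹⁻¹ p) ∨ _ = - rt6 v (π⁻¹⁻¹ p)
  rw [h2, inv_inv]
  unfold rt6
  rcases hπ p with h3 | h3
  · left; rw [h3, h1]; ring
  · right; rw [h3, h1]; ring

noncomputable def rT6 (τ : ℕ → Q5) : ZMod 3 → Fin 4 → ℝ := fun z => rt6 (τ z.val)

theorem chkT6_mem {τ : ℕ → Q5} {y : Q5} (h : chkT6 τ y = true) :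
    triple ((1 / 16 : ℝ) • y.ev) ∈ S2.O (rT6 τ) := by
  simp only [chkT6, List.any_eq_true, List.all_eq_true] at h
  obtain ⟨u, hu, c, hc, h⟩ := h
  have hu0 : (u : ZMod 3) ≠ 0 := by
    simp only [List.mem_cons, List.not_mem_nil, or_false] at hu
    rcases hu with rfl | rfl <;> decide
  obtain ⟨σ, hσ, hσ'⟩ := exists_aff_inv (u : ZMod 3) (c : ZMod 3) hu0
  refine ⟨σ, hσ, fun s => ?_⟩
  have hs : s.val ∈ [0, 1, 2] := by
    have := s.val_lt
    simp only [List.mem_cons, List.not_mem_nil, or_false]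
    omega
  have h1 := typ_mem6 (h s.val hs)
  have h2 : (σ⁻¹ s).val = (u * s.val + c) % 3 := by
    rw [hσ']
    have : (u : ZMod 3) * s + c = ((u * s.val + c : ℕ) : ZMod 3) := by
      push_cast
      rw [ZMod.natCast_zmod_val]
    rw [this, ZMod.val_natCast]
  change eH (Wq s * ((1 / 16 : ℝ) • y.ev)) ∈ S1.O (rt6 (τ (σ⁻¹ s).val))
  rw [h2]
  have h3 : Wq s * ((1 / 16 : ℝ) • y.ev) = (1 / 32 : ℝ) • ((Wm s.val).mul y).ev := by
    unfold Wq
    rw [smul_mul_smul_comm, Q5.ev_mul]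
    norm_num
  rw [h3]
  exact h1

noncomputable def topT6 : ZMod 5 → ZMod 3 → Fin 4 → ℝ :=
  fun m => if m = 0 then rT6 tA6 else rT6 tB6

theorem base_cell6 : ∀ a ∈ LA6, ∀ i : ZMod 5,
    triple (Zq6 i * ((1 / 4 : ℝ) • a.ev)) ∈ S2.O (topT6 i) := by
  intro a ha i
  have hchk := chkBase6_LA
  simp only [chkBase6, List.all_eq_true, Bool.and_eq_true] at hchk
  obtain ⟨h0, h1⟩ := hchk a ha
  have h2 : Zq6 i * ((1 / 4 : ℝ) • a.ev) = (1 / 16 : ℝ) • ((Zm6 i.val).mul a).ev := by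
    unfold Zq6
    rw [smul_mul_smul_comm, Q5.ev_mul]
    norm_num
  rw [h2]
  unfold topT6
  by_cases hi : i = 0
  · subst hi
    rw [if_pos rfl]
    exact chkT6_mem h0
  · rw [if_neg hi]
    apply chkT6_mem
    apply h1
    have := i.val_lt
    have h3 : i.val ≠ 0 := fun h => hi ((ZMod.val_eq_zero i).1 h)
    simp only [List.mem_cons, List.not_mem_nil, or_false]
    omega

noncomputable def S3' := S2.wr (affSubgroup (ZMod 5)) (isSolvable_aff _)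

noncomputable def emb6 (x : EuclideanSpace ℝ (Fin 4)) :=
  (WithLp.toLp 2 fun i : ZMod 5 => triple (Zq6 i * eH.symm x) :
    PiLp 2 (fun _ : ZMod 5 => PiLp 2 (fun _ : ZMod 3 => PiLp 2 (fun _ : Fin 4 => ℝ))))

theorem emb6_mem {y : Q5} (hy : y ∈ all600) {x : EuclideanSpace ℝ (Fin 4)}
    (hx : eH.symm x = (1 / 4 : ℝ) • y.ev) : emb6 x ∈ S3'.O topT6 := by
  obtain ⟨k, hk, a, ha, h⟩ := cover600 hy
  set k' : ZMod 5 := (k : ZMod 5) with hk'
  have hkv : k'.val = k := ZMod.val_natCast_of_lt hk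
  have hE : Zq6 k' * ((1 / 4 : ℝ) • y.ev) = (1 / 4 : ℝ) • a.ev := by
    have h1 := congrArg Q5.ev h
    rw [Q5.ev_mul, Q5.ev_smul] at h1
    unfold Zq6
    rw [smul_mul_smul_comm, hkv, h1, smul_smul]
    norm_num
  obtain ⟨σ, hσ, hσ'⟩ := exists_aff_inv (F := ZMod 5) 1 (-k') one_ne_zero
  refine ⟨σ, hσ, fun i => ?_⟩
  have h2 := base_cell6 a ha (i - k')
  rw [← hE, ← mul_assoc, Zq6_mul, sub_add_cancel] at h2
  change triple (Zq6 i * eH.symm x) ∈ S2.O (topT6 (σ⁻¹ i))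
  rw [hσ', one_mul, ← sub_eq_add_neg, hx]
  exact h2

theorem emb6_sim : ∃ r : ℝ, 0 < r ∧ IsSim r emb6 := by
  have h0 : ∀ (m : ZMod 5) (s : ZMod 3),
      IsSim 1 (fun x : EuclideanSpace ℝ (Fin 4) => eH (Wq s * (Zq6 m * eH.symm x))) := by
    intro m s x y
    rw [LinearIsometryEquiv.dist_map, dist_eq_norm, ← mul_sub, ← mul_sub, norm_mul,
      norm_mul, norm_Wq, norm_Zq6, ← map_sub, LinearIsometryEquiv.norm_map,
      dist_eq_norm]
    ring
  have h1 := fun m => IsSim.pi zero_le_one (h0 m)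
  have h2 := IsSim.pi (by positivity) h1
  exact ⟨_, by positivity, h2⟩

theorem all_mem6 {w : Fin 4 → ℝ} {v : Q5} (hw : ∀ p, w p = (1 / 4 : ℝ) * (v.co p).ev)
    {x : EuclideanSpace ℝ (Fin 4)} (hx : x ∈ AllPerms w) :
    ∃ y ∈ vecs v P24, eH.symm x = (1 / 4 : ℝ) • y.ev := by
  obtain ⟨π, hπ⟩ := hx
  exact ⟨_, mem_vecs (mem_P24 π) _ _ _ _, mkVec_ev _ v x π fun p => by rw [hπ, hw]⟩

theorem even_mem6 {w : Fin 4 → ℝ} {v : Q5} (hw : ∀ p, w p = (1 / 4 : ℝ) * (v.co p).ev)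
    {x : EuclideanSpace ℝ (Fin 4)} (hx : x ∈ EvenPerms w) :
    ∃ y ∈ vecs v P12, eH.symm x = (1 / 4 : ℝ) • y.ev := by
  obtain ⟨π, hs, hπ⟩ := hx
  exact ⟨_, mem_vecs (mem_P12 π hs) _ _ _ _, mkVec_ev _ v x π fun p => by rw [hπ, hw]⟩

theorem mem_all600 {x : EuclideanSpace ℝ (Fin 4)} (hx : x ∈ vertices600) :
    ∃ y ∈ all600, eH.symm x = (1 / 4 : ℝ) • y.ev := by
  have e0 : (0 : ℝ) = (1 / 4 : ℝ) * (⟨0, 0⟩ : Z5).ev := by unfold Z5.ev; push_cast; ring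
  have e1 : (1 : ℝ) = (1 / 4 : ℝ) * (⟨4, 0⟩ : Z5).ev := by unfold Z5.ev; push_cast; ring
  have e2 : (1 / 2 : ℝ) = (1 / 4 : ℝ) * (⟨2, 0⟩ : Z5).ev := by unfold Z5.ev; push_cast; ring
  have e3 : Real.goldenRatio / 2 = (1 / 4 : ℝ) * (⟨1, 1⟩ : Z5).ev := by
    rw [phi_val]; ring
  have e4 : 1 / (2 * Real.goldenRatio) = (1 / 4 : ℝ) * (⟨-1, 1⟩ : Z5).ev := by
    have := phi_inv_val
    rw [one_div, mul_inv, ← one_div Real.goldenRatio, this]; ring
  rcases hx with (h | h) | h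
  · obtain ⟨y, hy, he⟩ := all_mem6 (v := vA1) (fun p => by fin_cases p <;> first | exact e1 | exact e0) h
    exact ⟨y, by simp only [all600, List.mem_append]; tauto, he⟩
  · obtain ⟨y, hy, he⟩ := all_mem6 (v := vA2) (fun p => by fin_cases p <;> exact e2) h
    exact ⟨y, by simp only [all600, List.mem_append]; tauto, he⟩
  · obtain ⟨y, hy, he⟩ := even_mem6 (v := vB6)
      (fun p => by fin_cases p <;>
        first | exact e0 | exact e2 | exact e3 | exact e4) h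
    exact ⟨y, by simp only [all600, List.mem_append]; tauto, he⟩

theorem vertices600_inSolubleSet : InSolubleSet vertices600 := by
  obtain ⟨r, hr, hsim⟩ := emb6_sim
  refine TypeSys.inSolubleSet S3' topT6 hr hsim ?_
  intro x hx
  obtain ⟨y, hy, he⟩ := mem_all600 hx
  exact emb6_mem hy he

end Pool.Agent.W_MP_955314_co
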