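import Mathlib

/-!
A computable model of quaternions with coordinates in `ℤ[√5]`.
-/

namespace Pool.Agent.W_MP_955314_co

open scoped Quaternion

/-- `a + b √5`. -/
structure Z5 where
  a : ℤ
  b : ℤ

namespace Z5

def add (x y : Z5) : Z5 := ⟨x.a + y.a, x.b + y.b⟩
def sub (x y : Z5) : Z5 := ⟨x.a - y.a, x.b - y.b⟩
def mul (x y : Z5) : Z5 := ⟨x.a * y.a + 5 * (x.b * y.b), x.a * y.b + x.b * y.a⟩
def neg (x : Z5) : Z5 := ⟨-x.a, -x.b⟩
def smul (n : ℤ) (x : Z5) : Z5 := ⟨n * x.a, n * x.b⟩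
def eqb (x y : Z5) : Bool := x.a == y.a && x.b == y.b
def pm (x y : Z5) : Bool := eqb x y || eqb x (neg y)

noncomputable def ev (x : Z5) : ℝ := x.a + x.b * Real.sqrt 5

theorem ev_add (x y : Z5) : ev (add x y) = ev x + ev y := by
  simp only [ev, add]; push_cast; ring
theorem ev_sub (x y : Z5) : ev (sub x y) = ev x - ev y := by
  simp only [ev, sub]; push_cast; ring
theorem ev_neg (x : Z5) : ev (neg x) = - ev x := by
  simp only [ev, neg]; push_cast; ring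
theorem ev_smul (n : ℤ) (x : Z5) : ev (smul n x) = n * ev x := by
  simp only [ev, smul]; push_cast; ring
theorem ev_mul (x y : Z5) : ev (mul x y) = ev x * ev y := by
  simp only [ev, mul]; push_cast
  have h : Real.sqrt 5 * Real.sqrt 5 = 5 := Real.mul_self_sqrt (by norm_num)
  linear_combination (-(x.b : ℝ) * y.b) * h

theorem eqb_eq {x y : Z5} (h : eqb x y = true) : x = y := by
  simp only [eqb, Bool.and_eq_true, beq_iff_eq] at h
  cases x; cases y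
  simp only at h
  rw [h.1, h.2]

theorem pm_ev {x y : Z5} (h : pm x y = true) : ev x = ev y ∨ ev x = - ev y := by
  simp only [pm, Bool.or_eq_true] at h
  rcases h with h | h
  · left; rw [eqb_eq h]
  · right; rw [eqb_eq h, ev_neg]

end Z5

/-- A quaternion with coordinates in `ℤ[√5]`. -/
structure Q5 where
  r : Z5
  i : Z5
  j : Z5
  k : Z5

namespace Q5

def mul (p q : Q5) : Q5 :=
  ⟨((p.r.mul q.r).sub (p.i.mul q.i)).sub ((p.j.mul q.j).add (p.k.mul q.k)),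
   ((p.r.mul q.i).add (p.i.mul q.r)).add ((p.j.mul q.k).sub (p.k.mul q.j)),
   ((p.r.mul q.j).sub (p.i.mul q.k)).add ((p.j.mul q.r).add (p.k.mul q.i)),
   ((p.r.mul q.k).add (p.i.mul q.j)).add ((p.k.mul q.r).sub (p.j.mul q.i))⟩

def smul (n : ℤ) (p : Q5) : Q5 := ⟨p.r.smul n, p.i.smul n, p.j.smul n, p.k.smul n⟩

def eqb (p q : Q5) : Bool := p.r.eqb q.r && (p.i.eqb q.i && (p.j.eqb q.j && p.k.eqb q.k))

def nrm (p : Q5) : Z5 :=
  ((p.r.mul p.r).add (p.i.mul p.i)).add ((p.j.mul p.j).add (p.k.mul p.k))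

/-- Coordinates. -/
def co (p : Q5) : Fin 4 → Z5
  | 0 => p.r
  | 1 => p.i
  | 2 => p.j
  | 3 => p.k

noncomputable def ev (p : Q5) : ℍ[ℝ] := ⟨p.r.ev, p.i.ev, p.j.ev, p.k.ev⟩

@[simp] theorem ev_re (p : Q5) : (ev p).re = p.r.ev := rfl
@[simp] theorem ev_imI (p : Q5) : (ev p).imI = p.i.ev := rfl
@[simp] theorem ev_imJ (p : Q5) : (ev p).imJ = p.j.ev := rfl
@[simp] theorem ev_imK (p : Q5) : (ev p).imK = p.k.ev := rfl

theorem ev_mul (p q : Q5) : ev (mul p q) = ev p * ev q := by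
  apply QuaternionAlgebra.ext
  · rw [Quaternion.re_mul]
    simp only [ev_re, ev_imI, ev_imJ, ev_imK, mul, Z5.ev_sub, Z5.ev_add, Z5.ev_mul]; ring
  · rw [Quaternion.imI_mul]
    simp only [ev_re, ev_imI, ev_imJ, ev_imK, mul, Z5.ev_sub, Z5.ev_add, Z5.ev_mul]; ring
  · rw [Quaternion.imJ_mul]
    simp only [ev_re, ev_imI, ev_imJ, ev_imK, mul, Z5.ev_sub, Z5.ev_add, Z5.ev_mul]; ring
  · rw [Quaternion.imK_mul]
    simp only [ev_re, ev_imI, ev_imJ, ev_imK, mul, Z5.ev_sub, Z5.ev_add, Z5.ev_mul]; ring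

theorem ev_smul (n : ℤ) (p : Q5) : ev (smul n p) = (n : ℝ) • ev p := by
  apply QuaternionAlgebra.ext
  · rw [Quaternion.re_smul]; exact Z5.ev_smul _ _
  · rw [Quaternion.imI_smul]; exact Z5.ev_smul _ _
  · rw [Quaternion.imJ_smul]; exact Z5.ev_smul _ _
  · rw [Quaternion.imK_smul]; exact Z5.ev_smul _ _

theorem eqb_eq {p q : Q5} (h : eqb p q = true) : p = q := by
  simp only [eqb, Bool.and_eq_true] at h
  obtain ⟨h1, h2, h3, h4⟩ := h
  cases p; cases q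
  simp only at h1 h2 h3 h4
  rw [Z5.eqb_eq h1, Z5.eqb_eq h2, Z5.eqb_eq h3, Z5.eqb_eq h4]

theorem norm_ev (p : Q5) : ‖ev p‖ ^ 2 = (nrm p).ev := by
  rw [sq, ← Quaternion.normSq_eq_norm_mul_self, Quaternion.normSq_def']
  simp only [ev, nrm, Z5.ev_add, Z5.ev_mul]
  ring

end Q5

/-- The permutations of four letters, as lists of values. -/
def P24 : List (Fin 4 × Fin 4 × Fin 4 × Fin 4) :=
  [(0,1,2,3),(0,2,3,1),(0,3,1,2),(1,0,3,2),(1,3,2,0),(1,2,0,3),(2,3,0,1),(2,0,1,3),(2,1,3,0),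
   (3,2,1,0),(3,1,0,2),(3,0,2,1),
   (0,1,3,2),(0,2,1,3),(0,3,2,1),(1,0,2,3),(1,3,0,2),(1,2,3,0),(2,3,1,0),(2,0,3,1),(2,1,0,3),
   (3,2,0,1),(3,1,2,0),(3,0,1,2)]

/-- Up to signs, the coordinates of `y` are a permutation of those of `v`. -/
def isType (y v : Q5) : Bool :=
  P24.any fun t => Z5.pm y.r (v.co t.1) && (Z5.pm y.i (v.co t.2.1) &&
    (Z5.pm y.j (v.co t.2.2.1) && Z5.pm y.k (v.co t.2.2.2)))

/-- The coordinates of a real quaternion. -/
noncomputable def qc (x : ℍ[ℝ]) (p : Fin 4) : ℝ := Quaternion.linearIsometryEquivTuple x p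

theorem qc_zero (x : ℍ[ℝ]) : qc x 0 = x.re := rfl
theorem qc_one (x : ℍ[ℝ]) : qc x 1 = x.imI := rfl
theorem qc_two (x : ℍ[ℝ]) : qc x 2 = x.imJ := rfl
theorem qc_three (x : ℍ[ℝ]) : qc x 3 = x.imK := rfl

theorem qc_ev (q : Q5) (p : Fin 4) : qc q.ev p = (q.co p).ev := by
  fin_cases p <;> rfl

theorem P24_inj : ∀ t ∈ P24, Function.Injective (fun p : Fin 4 =>
    match p with
    | 0 => t.1
    | 1 => t.2.1
    | 2 => t.2.2.1
    | 3 => t.2.2.2) := by
  decide +kernel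

theorem isType_ev {y v : Q5} (h : isType y v = true) :
    ∃ π : Equiv.Perm (Fin 4), ∀ p, (y.co p).ev = (v.co (π p)).ev ∨
      (y.co p).ev = - (v.co (π p)).ev := by
  simp only [isType, List.any_eq_true] at h
  obtain ⟨t, ht, h⟩ := h
  simp only [Bool.and_eq_true] at h
  obtain ⟨h1, h2, h3, h4⟩ := h
  have hinj := P24_inj t ht
  refine ⟨Equiv.ofBijective _ (Finite.injective_iff_bijective.1 hinj), ?_⟩
  intro p
  fin_cases p
  · exact Z5.pm_ev h1
  · exact Z5.pm_ev h2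
  · exact Z5.pm_ev h3
  · exact Z5.pm_ev h4

end Pool.Agent.W_MP_955314_co
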