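import Mathlib
import Pool.Agent.W_MP_955314_co.Model

/-!
Finite computations for the 120-cell.  All vertex vectors are scaled by `2`, the powers of the
icosian of order five by `4`, and the powers of the Hurwitz unit of order three by `2`.
-/

namespace Pool.Agent.W_MP_955314_co

/-- Four times the powers of an icosian of order five. -/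
def Zm : ℕ → Q5
  | 0 => ⟨⟨4, 0⟩, ⟨0, 0⟩, ⟨0, 0⟩, ⟨0, 0⟩⟩
  | 1 => ⟨⟨-1, -1⟩, ⟨2, 0⟩, ⟨0, 0⟩, ⟨1, -1⟩⟩
  | 2 => ⟨⟨-1, 1⟩, ⟨-1, -1⟩, ⟨0, 0⟩, ⟨2, 0⟩⟩
  | 3 => ⟨⟨-1, 1⟩, ⟨1, 1⟩, ⟨0, 0⟩, ⟨-2, 0⟩⟩
  | _ => ⟨⟨-1, -1⟩, ⟨-2, 0⟩, ⟨0, 0⟩, ⟨-1, 1⟩⟩

/-- Twice the powers of a Hurwitz unit of order three. -/
def Wm : ℕ → Q5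
  | 0 => ⟨⟨2, 0⟩, ⟨0, 0⟩, ⟨0, 0⟩, ⟨0, 0⟩⟩
  | 1 => ⟨⟨-1, 0⟩, ⟨1, 0⟩, ⟨1, 0⟩, ⟨1, 0⟩⟩
  | _ => ⟨⟨-1, 0⟩, ⟨-1, 0⟩, ⟨-1, 0⟩, ⟨-1, 0⟩⟩

def vA : Q5 := ⟨⟨0, 0⟩, ⟨0, 0⟩, ⟨4, 0⟩, ⟨4, 0⟩⟩
def vB : Q5 := ⟨⟨2, 0⟩, ⟨2, 0⟩, ⟨2, 0⟩, ⟨0, 2⟩⟩
def vC : Q5 := ⟨⟨3, -1⟩, ⟨1, 1⟩, ⟨1, 1⟩, ⟨1, 1⟩⟩
def vD : Q5 := ⟨⟨-1, 1⟩, ⟨-1, 1⟩, ⟨-1, 1⟩, ⟨3, 1⟩⟩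
def vE : Q5 := ⟨⟨0, 0⟩, ⟨3, -1⟩, ⟨2, 0⟩, ⟨3, 1⟩⟩
def vF : Q5 := ⟨⟨0, 0⟩, ⟨-1, 1⟩, ⟨1, 1⟩, ⟨0, 2⟩⟩
def vG : Q5 := ⟨⟨-1, 1⟩, ⟨2, 0⟩, ⟨1, 1⟩, ⟨4, 0⟩⟩

/-- The four types of triples. -/
def tA : ℕ → Q5 := fun _ => vA
def tP : ℕ → Q5 := fun _ => vF
def tR : ℕ → Q5
  | 0 => vB
  | 1 => vC
  | _ => vD
def tN : ℕ → Q5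
  | 0 => vE
  | _ => vG

/-- The `24` vectors of the first type with the position of the second type in each row. -/
def LA : List (Q5 × List ℕ) :=
  [(⟨⟨-4, 0⟩, ⟨-4, 0⟩, ⟨0, 0⟩, ⟨0, 0⟩⟩, [0, 1, 2, 4, 3]),
   (⟨⟨-4, 0⟩, ⟨0, 0⟩, ⟨-4, 0⟩, ⟨0, 0⟩⟩, [0, 3, 1, 4, 2]),
   (⟨⟨-4, 0⟩, ⟨0, 0⟩, ⟨0, 0⟩, ⟨-4, 0⟩⟩, [0, 3, 2, 1, 4]),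
   (⟨⟨-4, 0⟩, ⟨0, 0⟩, ⟨0, 0⟩, ⟨4, 0⟩⟩, [0, 1, 4, 3, 2]),
   (⟨⟨-4, 0⟩, ⟨0, 0⟩, ⟨4, 0⟩, ⟨0, 0⟩⟩, [0, 2, 4, 1, 3]),
   (⟨⟨-4, 0⟩, ⟨4, 0⟩, ⟨0, 0⟩, ⟨0, 0⟩⟩, [0, 2, 1, 3, 4]),
   (⟨⟨0, 0⟩, ⟨-4, 0⟩, ⟨-4, 0⟩, ⟨0, 0⟩⟩, [0, 4, 1, 2, 3]),
   (⟨⟨0, 0⟩, ⟨-4, 0⟩, ⟨0, 0⟩, ⟨-4, 0⟩⟩, [0, 1, 3, 2, 4]),
   (⟨⟨0, 0⟩, ⟨-4, 0⟩, ⟨0, 0⟩, ⟨4, 0⟩⟩, [0, 4, 2, 3, 1]),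
   (⟨⟨0, 0⟩, ⟨-4, 0⟩, ⟨4, 0⟩, ⟨0, 0⟩⟩, [0, 2, 3, 4, 1]),
   (⟨⟨0, 0⟩, ⟨0, 0⟩, ⟨-4, 0⟩, ⟨-4, 0⟩⟩, [0, 4, 3, 1, 2]),
   (⟨⟨0, 0⟩, ⟨0, 0⟩, ⟨-4, 0⟩, ⟨4, 0⟩⟩, [0, 3, 4, 2, 1]),
   (⟨⟨0, 0⟩, ⟨0, 0⟩, ⟨4, 0⟩, ⟨-4, 0⟩⟩, [0, 3, 4, 2, 1]),
   (⟨⟨0, 0⟩, ⟨0, 0⟩, ⟨4, 0⟩, ⟨4, 0⟩⟩, [0, 4, 3, 1, 2]),
   (⟨⟨0, 0⟩, ⟨4, 0⟩, ⟨-4, 0⟩, ⟨0, 0⟩⟩, [0, 2, 3, 4, 1]),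
   (⟨⟨0, 0⟩, ⟨4, 0⟩, ⟨0, 0⟩, ⟨-4, 0⟩⟩, [0, 4, 2, 3, 1]),
   (⟨⟨0, 0⟩, ⟨4, 0⟩, ⟨0, 0⟩, ⟨4, 0⟩⟩, [0, 1, 3, 2, 4]),
   (⟨⟨0, 0⟩, ⟨4, 0⟩, ⟨4, 0⟩, ⟨0, 0⟩⟩, [0, 4, 1, 2, 3]),
   (⟨⟨4, 0⟩, ⟨-4, 0⟩, ⟨0, 0⟩, ⟨0, 0⟩⟩, [0, 2, 1, 3, 4]),
   (⟨⟨4, 0⟩, ⟨0, 0⟩, ⟨-4, 0⟩, ⟨0, 0⟩⟩, [0, 2, 4, 1, 3]),
   (⟨⟨4, 0⟩, ⟨0, 0⟩, ⟨0, 0⟩, ⟨-4, 0⟩⟩, [0, 1, 4, 3, 2]),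
   (⟨⟨4, 0⟩, ⟨0, 0⟩, ⟨0, 0⟩, ⟨4, 0⟩⟩, [0, 3, 2, 1, 4]),
   (⟨⟨4, 0⟩, ⟨0, 0⟩, ⟨4, 0⟩, ⟨0, 0⟩⟩, [0, 3, 1, 4, 2]),
   (⟨⟨4, 0⟩, ⟨4, 0⟩, ⟨0, 0⟩, ⟨0, 0⟩⟩, [0, 1, 2, 4, 3])]

/-- `y` is `32` times a vector for which the types of the products with the powers of the Hurwitz
unit are, up to an affine change of the index, given by `τ`. -/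
def chkT (τ : ℕ → Q5) (y : Q5) : Bool :=
  [1, 2].any fun u => [0, 1, 2].any fun c =>
    [0, 1, 2].all fun s => isType ((Wm s).mul y) ((τ ((u * s + c) % 3)).smul 32)

def chkCell (a : Q5) (β : List ℕ) (i j : ℕ) : Bool :=
  if i = 0 then (if j = 0 then chkT tA ((Zm i).mul (a.mul (Zm j)))
    else chkT tR ((Zm i).mul (a.mul (Zm j))))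
  else if j = 0 then chkT tR ((Zm i).mul (a.mul (Zm j)))
  else if β.getD i 0 = j then chkT tP ((Zm i).mul (a.mul (Zm j)))
  else chkT tN ((Zm i).mul (a.mul (Zm j)))

def chkBase (l : List (Q5 × List ℕ)) : Bool :=
  l.all fun ab => [0, 1, 2, 3, 4].all fun i => [0, 1, 2, 3, 4].all fun j =>
    chkCell ab.1 ab.2 i j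

theorem chkBase_LA : chkBase LA = true := by decide +kernel

end Pool.Agent.W_MP_955314_co
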