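import Mathlib
import Pool.Agent.W_MP_955314_co.Pattern
import Pool.Agent.W_MP_955314_co.TypeSys

/-!
Wreath products of permutation groups and equivalence of patterns.
-/

set_option autoImplicit false

namespace Pool.Agent.W_MP_955314_co

/-- Two patterns are equivalent under a permutation group. -/
def Eqv {Ω C : Type} (P : Subgroup (Equiv.Perm Ω)) (a b : Ω → C) : Prop :=
  ∃ σ ∈ P, ∀ ω, b (σ ω) = a ω

theorem Eqv.refl {Ω C : Type} (P : Subgroup (Equiv.Perm Ω)) (a : Ω → C) : Eqv P a a :=
  ⟨1, P.one_mem, fun _ => rfl⟩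

theorem Eqv.of_eq {Ω C : Type} (P : Subgroup (Equiv.Perm Ω)) {a b : Ω → C} (h : a = b) :
    Eqv P a b := h ▸ Eqv.refl P a

theorem Eqv.symm {Ω C : Type} {P : Subgroup (Equiv.Perm Ω)} {a b : Ω → C} (h : Eqv P a b) :
    Eqv P b a := by
  obtain ⟨σ, hσ, h⟩ := h
  refine ⟨σ⁻¹, P.inv_mem hσ, fun ω => ?_⟩
  rw [← h]
  exact congrArg b (σ.apply_symm_apply ω)

theorem Eqv.trans {Ω C : Type} {P : Subgroup (Equiv.Perm Ω)} {a b c : Ω → C} (h : Eqv P a b)
    (h' : Eqv P b c) : Eqv P a c := by
  obtain ⟨σ, hσ, h⟩ := h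
  obtain ⟨τ, hτ, h'⟩ := h'
  refine ⟨τ * σ, P.mul_mem hτ hσ, fun ω => ?_⟩
  rw [Equiv.Perm.mul_apply, h', h]

section

variable {J Ω : Type}

/-- The permutation `(j, ω) ↦ (σ j, p (σ j) ω)`. -/
def pw (p : J → Equiv.Perm Ω) (σ : Equiv.Perm J) : Equiv.Perm (J × Ω) where
  toFun x := (σ x.1, p (σ x.1) x.2)
  invFun x := (σ.symm x.1, (p x.1).symm x.2)
  left_inv x := by simp
  right_inv x := by simp

theorem pw_apply (p : J → Equiv.Perm Ω) (σ : Equiv.Perm J) (j : J) (ω : Ω) :
    pw p σ (j, ω) = (σ j, p (σ j) ω) := rfl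

/-- The homomorphism from the abstract wreath product. -/
def pwHom (P : Subgroup (Equiv.Perm Ω)) (Q : Subgroup (Equiv.Perm J)) :
    ((J → P) ⋊[mulAutArrow] Q) →* Equiv.Perm (J × Ω) where
  toFun a := pw (fun j => (a.left j : Equiv.Perm Ω)) (a.right : Equiv.Perm J)
  map_one' := by
    ext x <;> rfl
  map_mul' a b := by
    apply Equiv.ext
    rintro ⟨j, ω⟩
    rw [Equiv.Perm.mul_apply, pw_apply, pw_apply, pw_apply]
    simp only [SemidirectProduct.mul_left, SemidirectProduct.mul_right, Pi.mul_apply,
      Subgroup.coe_mul, Equiv.Perm.mul_apply]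
    congr 1
    have : (mulAutArrow a.right b.left) ((a.right : Equiv.Perm J) ((b.right : Equiv.Perm J) j)) =
        b.left ((b.right : Equiv.Perm J) j) := by
      change b.left (((a.right)⁻¹ : Q) • _) = _
      refine congrArg b.left ?_
      change ((a.right : Equiv.Perm J)⁻¹) _ = _
      exact (a.right : Equiv.Perm J).symm_apply_apply _
    rw [this]

/-- The wreath product of two permutation groups. -/
def pwreath (P : Subgroup (Equiv.Perm Ω)) (Q : Subgroup (Equiv.Perm J)) :
    Subgroup (Equiv.Perm (J × Ω)) :=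
  (pwHom P Q).range

theorem pw_mem {P : Subgroup (Equiv.Perm Ω)} {Q : Subgroup (Equiv.Perm J)}
    {p : J → Equiv.Perm Ω} (hp : ∀ j, p j ∈ P) {σ : Equiv.Perm J} (hσ : σ ∈ Q) :
    pw p σ ∈ pwreath P Q :=
  ⟨⟨fun j => ⟨p j, hp j⟩, ⟨σ, hσ⟩⟩, rfl⟩

theorem isSolvable_pwreath (P : Subgroup (Equiv.Perm Ω)) (Q : Subgroup (Equiv.Perm J))
    (hP : Group.IsSolvable P) (hQ : Group.IsSolvable Q) : Group.IsSolvable (pwreath P Q) := by
  have := hP
  have := hQ
  have : Group.IsSolvable (J → P) := isSolvable_pi
  have : Group.IsSolvable ((J → P) ⋊[mulAutArrow] Q) :=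
    Group.isSolvable_of_ker_le_range (SemidirectProduct.inl : (J → P) →* (J → P) ⋊[mulAutArrow] Q)
      SemidirectProduct.rightHom (by rw [SemidirectProduct.range_inl_eq_ker_rightHom])
  exact Group.isSolvable_of_surjective (pwHom P Q).rangeRestrict_surjective

theorem eqv_wr {C : Type} {P : Subgroup (Equiv.Perm Ω)} {Q : Subgroup (Equiv.Perm J)}
    (a b : J → Ω → C) {σ : Equiv.Perm J} (hσ : σ ∈ Q) (h : ∀ j, Eqv P (a j) (b (σ j))) :
    Eqv (pwreath P Q) (fun x : J × Ω => a x.1 x.2) (fun x : J × Ω => b x.1 x.2) := by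
  choose p hp h using h
  refine ⟨pw (fun j => p (σ.symm j)) σ, pw_mem (fun j => hp _) hσ, ?_⟩
  rintro ⟨j, ω⟩
  rw [pw_apply]
  simp only [Equiv.symm_apply_apply]
  exact h j ω

end

/-- The group generated by the transposition of `Bool`. -/
def boolGroup : Subgroup (Equiv.Perm Bool) := Subgroup.zpowers Equiv.boolNot

theorem isSolvable_boolGroup : Group.IsSolvable boolGroup := isSolvable_zpowers _

theorem boolNot_mem : Equiv.boolNot ∈ boolGroup := Subgroup.mem_zpowers _

theorem pair_eqv (f g : Bool → Bool) (hf : ¬ (f false = true ∧ f true = true))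
    (hg : ¬ (g false = true ∧ g true = true)) (h : (f false || f true) = (g false || g true)) :
    Eqv boolGroup f g := by
  by_cases h1 : f false = g false
  · refine ⟨1, Subgroup.one_mem _, fun ω => ?_⟩
    cases ω
    · exact h1.symm
    · change g true = f true
      revert hf hg h h1
      generalize f false = a
      generalize f true = b
      generalize g false = c
      generalize g true = d
      revert a b c d
      decide
  · refine ⟨Equiv.boolNot, boolNot_mem, fun ω => ?_⟩
    cases ω
    · change g true = f false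
      revert hf hg h h1
      generalize f false = a
      generalize f true = b
      generalize g false = c
      generalize g true = d
      revert a b c d
      decide
    · change g false = f true
      revert hf hg h h1
      generalize f false = a
      generalize f true = b
      generalize g false = c
      generalize g true = d
      revert a b c d
      decide

/-- Translations of a commutative additive group. -/
def transHom (A : Type) [AddCommGroup A] : Multiplicative A →* Equiv.Perm A where
  toFun u := Equiv.addLeft u.toAdd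
  map_one' := by
    ext x
    simp
  map_mul' u v := by
    ext x
    simp [add_assoc]

/-- The translation group of a commutative additive group. -/
def transGroup (A : Type) [AddCommGroup A] : Subgroup (Equiv.Perm A) :=
  (transHom A).range

theorem isSolvable_transGroup (A : Type) [AddCommGroup A] :
    Group.IsSolvable (transGroup A) := by
  have : Group.IsSolvable (Multiplicative A) := Group.isSolvable_of_comm (fun a b => mul_comm a b)
  exact Group.isSolvable_of_surjective (transHom A).rangeRestrict_surjective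

theorem exists_trans {A : Type} [AddCommGroup A] (u : A) :
    ∃ σ ∈ transGroup A, ∀ s, σ s = u + s :=
  ⟨_, ⟨Multiplicative.ofAdd u, rfl⟩, fun _ => rfl⟩

/-- Two-transitivity of the affine group. -/
theorem exists_aff2 {F : Type} [Field F] (u v u' v' : F) (huv : u ≠ v) (huv' : u' ≠ v') :
    ∃ σ ∈ affSubgroup F, σ u = u' ∧ σ v = v' := by
  obtain ⟨σ, hσ, h0, h1⟩ := exists_aff u v huv
  obtain ⟨τ, hτ, h0', h1'⟩ := exists_aff u' v' huv'
  refine ⟨τ * σ⁻¹, Subgroup.mul_mem _ hτ (Subgroup.inv_mem _ hσ), ?_, ?_⟩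
  · rw [Equiv.Perm.mul_apply, h0, ← h0']
    exact τ.apply_symm_apply _
  · rw [Equiv.Perm.mul_apply, h1, ← h1']
    exact τ.apply_symm_apply _

end Pool.Agent.W_MP_955314_co
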