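import Mathlib
import Pool.Agent.W_MP_955314_co.PermWreath

/-!
For every `k` there is a labelling of a finite set `Ω` by `Fin k ⊕ Bool` and a soluble
permutation group of `Ω` under which the patterns of all three-element subsets of `Fin k` are
equivalent.
-/

set_option autoImplicit false

namespace Pool.Agent.W_MP_955314_co

/-- The pattern of a labelling. -/
def lift {Ω : Type} {k : ℕ} (ι : Ω → Fin k ⊕ Bool) (t : Fin k → Bool) (ω : Ω) : Bool :=
  Sum.elim t id (ι ω)

theorem lift_inl {Ω : Type} {k : ℕ} {ι : Ω → Fin k ⊕ Bool} {t : Fin k → Bool} {ω : Ω} {i : Fin k}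
    (h : ι ω = Sum.inl i) : lift ι t ω = t i := by
  rw [lift, h, Sum.elim_inl]

theorem lift_inr {Ω : Type} {k : ℕ} {ι : Ω → Fin k ⊕ Bool} {t : Fin k → Bool} {ω : Ω} {u : Bool}
    (h : ι ω = Sum.inr u) : lift ι t ω = u := by
  rw [lift, h, Sum.elim_inr]; rfl

/-- Three of the values are true. -/
def Three {k : ℕ} (t : Fin k → Bool) : Prop :=
  (Finset.univ.filter (fun i => t i = true)).card = 3

theorem Three.exists {k : ℕ} {t : Fin k → Bool} (h : Three t) :
    ∃ i₁ i₂ i₃ : Fin k, i₁ < i₂ ∧ i₂ < i₃ ∧ ∀ x, t x = true ↔ x = i₁ ∨ x = i₂ ∨ x = i₃ := by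
  have h0 : (Finset.univ.filter (fun i => t i = true)).card = 3 := h
  refine ⟨(Finset.univ.filter (fun i => t i = true)).orderEmbOfFin h0 0,
    (Finset.univ.filter (fun i => t i = true)).orderEmbOfFin h0 1,
    (Finset.univ.filter (fun i => t i = true)).orderEmbOfFin h0 2, ?_, ?_, ?_⟩
  · exact (OrderEmbedding.lt_iff_lt _).2 (by decide)
  · exact (OrderEmbedding.lt_iff_lt _).2 (by decide)
  · intro x
    have h1 : t x = true ↔
        x ∈ Set.range ((Finset.univ.filter (fun i => t i = true)).orderEmbOfFin h0) := by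
      rw [Finset.range_orderEmbOfFin]
      simp
    rw [h1]
    constructor
    · rintro ⟨i, rfl⟩
      fin_cases i
      · left; rfl
      · right; left; rfl
      · right; right; rfl
    · rintro (h | h | h)
      · exact ⟨0, h.symm⟩
      · exact ⟨1, h.symm⟩
      · exact ⟨2, h.symm⟩

/-- The statement proved by induction. -/
def Sch (k : ℕ) : Prop :=
  ∃ (Ω : Type) (_ : Fintype Ω) (ι : Ω → Fin k ⊕ Bool) (P : Subgroup (Equiv.Perm Ω)),
    Group.IsSolvable P ∧ (∃ ω i, ι ω = Sum.inl i) ∧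
      ∀ t t' : Fin k → Bool, Three t → Three t' → Eqv P (lift ι t) (lift ι t')

theorem isSolvable_bot' {G : Type*} [Group G] : Group.IsSolvable (⊥ : Subgroup G) := by
  apply Group.isSolvable_of_comm
  intro a b
  exact Subsingleton.elim _ _

theorem sch_three : Sch 3 := by
  refine ⟨Fin 3, inferInstance, Sum.inl, ⊥, isSolvable_bot', ⟨0, 0, rfl⟩, ?_⟩
  intro t t' ht ht'
  have key : ∀ t : Fin 3 → Bool, Three t → t = fun _ => true := by
    intro t ht
    have h1 : (Finset.univ.filter (fun i => t i = true)) = Finset.univ := by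
      apply Finset.eq_univ_of_card
      rw [show (Finset.univ.filter (fun i => t i = true)).card = 3 from ht]
      rfl
    funext i
    have : i ∈ Finset.univ.filter (fun i => t i = true) := by
      rw [h1]
      exact Finset.mem_univ i
    exact (Finset.mem_filter.1 this).2
  rw [key t ht, key t' ht']
  exact Eqv.refl _ _

/-- The equivalence of two arrays of patterns of matching classes. -/
theorem eqv_cl {C J Ω I : Type} {P : Subgroup (Equiv.Perm Ω)} {Q : Subgroup (Equiv.Perm J)}
    (rep : I → Ω → C) (R R' : J → Ω → C) (cl cl' : J → I)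
    (h : ∀ z, Eqv P (R z) (rep (cl z))) (h' : ∀ z, Eqv P (R' z) (rep (cl' z)))
    {σ : Equiv.Perm J} (hσ : σ ∈ Q) (hcl : ∀ z, cl' (σ z) = cl z) :
    Eqv (pwreath P Q) (fun x : J × Ω => R x.1 x.2) (fun x : J × Ω => R' x.1 x.2) := by
  refine eqv_wr R R' hσ fun z => ?_
  refine (h z).trans ?_
  rw [← hcl z]
  exact (h' (σ z)).symm

section

variable {Ω : Type} {n : ℕ}

/-- The labels of the pair gadget. -/
def kap (ι : Ω → Fin (n + 2) ⊕ Bool) (a b : Fin (n + 3)) (c : Fin (n + 1) → Fin (n + 3)) :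
    Fin (n + 1) × (Ω × Bool) → Fin (n + 3) ⊕ Bool := fun y =>
  Sum.elim
    (fun i : Fin (n + 2) => Fin.cases (motive := fun _ => Fin (n + 3) ⊕ Bool)
      (bif y.2.2 then Sum.inl b else Sum.inl a)
      (fun j => bif y.2.2 then Sum.inr false else Sum.inl (c (j + y.1))) i)
    (fun u => bif y.2.2 then Sum.inr false else Sum.inr u) (ι y.2.1)

/-- The merged subset. -/
def mrg (a b : Fin (n + 3)) (c : Fin (n + 1) → Fin (n + 3)) (t : Fin (n + 3) → Bool)
    (s : Fin (n + 1)) : Fin (n + 2) → Bool :=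
  Fin.cases (t a || t b) (fun j => t (c (j + s)))

theorem kap_or (ι : Ω → Fin (n + 2) ⊕ Bool) (a b : Fin (n + 3))
    (c : Fin (n + 1) → Fin (n + 3)) (t : Fin (n + 3) → Bool) (s : Fin (n + 1)) (ω : Ω) :
    (lift (kap ι a b c) t (s, (ω, false)) || lift (kap ι a b c) t (s, (ω, true))) =
      lift ι (mrg a b c t s) ω := by
  rcases h : ι ω with i | u
  · rw [lift_inl h]
    induction i using Fin.cases with
    | zero => simp [lift, kap, h, mrg]
    | succ j => simp [lift, kap, h, mrg]
  · rw [lift_inr h]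
    simp [lift, kap, h]

theorem kap_not (ι : Ω → Fin (n + 2) ⊕ Bool) (a b : Fin (n + 3))
    (c : Fin (n + 1) → Fin (n + 3)) (t : Fin (n + 3) → Bool) (s : Fin (n + 1)) (ω : Ω)
    (hab : ¬ (t a = true ∧ t b = true)) :
    ¬ (lift (kap ι a b c) t (s, (ω, false)) = true ∧
      lift (kap ι a b c) t (s, (ω, true)) = true) := by
  rcases h : ι ω with i | u
  · induction i using Fin.cases with
    | zero => simpa [lift, kap, h] using hab
    | succ j => simp [lift, kap, h]
  · simp [lift, kap, h]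

/-- The pattern of a special pair. -/
def spat (ι : Ω → Fin (n + 2) ⊕ Bool) (v : Fin (n + 1)) : Ω × Bool → Bool := fun y =>
  Sum.elim
    (fun i : Fin (n + 2) => Fin.cases (motive := fun _ => Bool) true
      (fun j => bif y.2 then false else decide (j = v)) i)
    (fun u => bif y.2 then false else u) (ι y.1)

theorem kap_sp (ι : Ω → Fin (n + 2) ⊕ Bool) (a b : Fin (n + 3))
    (c : Fin (n + 1) → Fin (n + 3)) (t : Fin (n + 3) → Bool) (s : Fin (n + 1)) (y : Ω × Bool)
    (ha : t a = true) (hb : t b = true) (u : Fin (n + 1))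
    (hu : ∀ j, t (c j) = decide (j = u)) :
    lift (kap ι a b c) t (s, y) = spat ι (u - s) y := by
  obtain ⟨ω, x⟩ := y
  rcases h : ι ω with i | w
  · induction i using Fin.cases with
    | zero => cases x <;> simp [lift, kap, h, spat, ha, hb]
    | succ j =>
      cases x
      · simp only [lift, kap, h, spat, Sum.elim_inl, Fin.cases_succ, cond_false, hu]
        rw [decide_eq_decide]
        exact eq_sub_iff_add_eq.symm
      · simp [lift, kap, h, spat]
  · cases x <;> simp [lift, kap, h, spat]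

end

theorem exists_compl (n : ℕ) (a b : Fin (n + 3)) (hab : a ≠ b) :
    ∃ c : Fin (n + 1) → Fin (n + 3), Function.Injective c ∧ (∀ j, c j ≠ a ∧ c j ≠ b) ∧
      ∀ x, x ≠ a → x ≠ b → ∃ j, c j = x := by
  have hcard : Fintype.card {x : Fin (n + 3) // x ≠ a ∧ x ≠ b} = n + 1 := by
    rw [Fintype.card_subtype]
    have : (Finset.univ.filter fun x : Fin (n + 3) => x ≠ a ∧ x ≠ b) =
        (Finset.univ.erase a).erase b := by
      ext x
      simp [and_comm]
    rw [this, Finset.card_erase_of_mem, Finset.card_erase_of_mem (Finset.mem_univ _),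
      Finset.card_univ, Fintype.card_fin]
    · rfl
    · simp [hab.symm]
  let e := (Fintype.equivFinOfCardEq hcard).symm
  refine ⟨fun j => e j, fun j j' h => e.injective (Subtype.ext h), fun j => (e j).2, ?_⟩
  intro x hxa hxb
  exact ⟨e.symm ⟨x, hxa, hxb⟩, by simp⟩

theorem three_mrg {n : ℕ} {a b : Fin (n + 3)} (hab : a ≠ b) {c : Fin (n + 1) → Fin (n + 3)}
    (hinj : Function.Injective c) (hne : ∀ j, c j ≠ a ∧ c j ≠ b)
    (hsurj : ∀ x, x ≠ a → x ≠ b → ∃ j, c j = x) {t : Fin (n + 3) → Bool} (ht : Three t)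
    (hnot : ¬ (t a = true ∧ t b = true)) (s : Fin (n + 1)) : Three (mrg a b c t s) := by
  unfold Three at *
  rw [Finset.card_filter] at *
  rw [Fin.sum_univ_succ]
  have h1 : ∑ j : Fin (n + 1), (if mrg a b c t s j.succ = true then 1 else 0) =
      ∑ x ∈ (Finset.univ.erase a).erase b, (if t x = true then 1 else 0) := by
    refine Finset.sum_bij (fun j _ => c (j + s)) ?_ ?_ ?_ ?_
    · intro j _
      simp [(hne (j + s)).1, (hne (j + s)).2]
    · intro j _ j' _ h
      exact add_right_cancel (hinj h)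
    · intro x hx
      simp only [Finset.mem_erase, Finset.mem_univ, and_true] at hx
      obtain ⟨j, rfl⟩ := hsurj x hx.2 hx.1
      exact ⟨j - s, Finset.mem_univ _, by simp⟩
    · intro j _
      rfl
  rw [h1]
  have hb : b ∈ Finset.univ.erase a := by simp [hab.symm]
  rw [← Finset.add_sum_erase _ _ (Finset.mem_univ a), ← Finset.add_sum_erase _ _ hb] at ht
  refine Eq.trans ?_ ht
  have h2 : mrg a b c t s 0 = (t a || t b) := rfl
  rw [h2, ← add_assoc]
  congr 1
  revert hnot
  generalize t a = p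
  generalize t b = q
  revert p q
  decide

theorem exists_sp {n : ℕ} {a b : Fin (n + 3)} (hab : a ≠ b) {c : Fin (n + 1) → Fin (n + 3)}
    (hinj : Function.Injective c) (hne : ∀ j, c j ≠ a ∧ c j ≠ b)
    (hsurj : ∀ x, x ≠ a → x ≠ b → ∃ j, c j = x) {t : Fin (n + 3) → Bool} (ht : Three t)
    (ha : t a = true) (hb : t b = true) : ∃ u, ∀ j, t (c j) = decide (j = u) := by
  have hb' : b ∈ (Finset.univ.filter fun i => t i = true).erase a := by
    simp [hab.symm, hb]
  have ha' : a ∈ Finset.univ.filter fun i => t i = true := by simp [ha]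
  have h1 : (((Finset.univ.filter fun i => t i = true).erase a).erase b).card = 1 := by
    rw [Finset.card_erase_of_mem hb', Finset.card_erase_of_mem ha']
    rw [show (Finset.univ.filter fun i => t i = true).card = 3 from ht]
  obtain ⟨x, hx⟩ := Finset.card_eq_one.1 h1
  have hx' : ∀ y, (y ≠ b ∧ y ≠ a ∧ t y = true) ↔ y = x := by
    intro y
    have : y ∈ ((Finset.univ.filter fun i => t i = true).erase a).erase b ↔ y ∈ ({x} : Finset _) :=
      by rw [hx]
    simpa using this
  obtain ⟨hxb, hxa, -⟩ := (hx' x).2 rfl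
  obtain ⟨u, rfl⟩ := hsurj x hxa hxb
  refine ⟨u, fun j => ?_⟩
  have h2 := hx' (c j)
  rw [Bool.eq_iff_iff, decide_eq_true_iff]
  constructor
  · intro h
    exact hinj (h2.1 ⟨(hne j).2, (hne j).1, h⟩)
  · rintro rfl
    exact (h2.2 rfl).2.2

section

variable {Ω : Type} {n : ℕ}

theorem ord_eqv {ι : Ω → Fin (n + 2) ⊕ Bool} {P : Subgroup (Equiv.Perm Ω)}
    (heq : ∀ t t' : Fin (n + 2) → Bool, Three t → Three t' → Eqv P (lift ι t) (lift ι t'))
    (c : Fin (n + 3) → Fin (n + 3) → Fin (n + 1) → Fin (n + 3))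
    (hc : ∀ a b, a ≠ b → Function.Injective (c a b) ∧ (∀ j, c a b j ≠ a ∧ c a b j ≠ b) ∧
      ∀ x, x ≠ a → x ≠ b → ∃ j, c a b j = x)
    {a b a' b' : Fin (n + 3)} {t t' : Fin (n + 3) → Bool} (hab : a ≠ b) (hab' : a' ≠ b')
    (ht : Three t) (ht' : Three t') (hnot : ¬ (t a = true ∧ t b = true))
    (hnot' : ¬ (t' a' = true ∧ t' b' = true)) :
    Eqv (pwreath (pwreath boolGroup P) (transGroup (Fin (n + 1))))
      (lift (kap ι a b (c a b)) t) (lift (kap ι a' b' (c a' b')) t') := by
  refine eqv_wr (P := pwreath boolGroup P) (Q := transGroup (Fin (n + 1)))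
    (fun s y => lift (kap ι a b (c a b)) t (s, y))
    (fun s y => lift (kap ι a' b' (c a' b')) t' (s, y)) (σ := 1) (Subgroup.one_mem _)
    (fun s => ?_)
  obtain ⟨h1, h2, h3⟩ := hc a b hab
  obtain ⟨h1', h2', h3'⟩ := hc a' b' hab'
  obtain ⟨p, hp, hp2⟩ := heq (mrg a b (c a b) t s) (mrg a' b' (c a' b') t' s)
    (three_mrg hab h1 h2 h3 ht hnot s) (three_mrg hab' h1' h2' h3' ht' hnot' s)
  refine eqv_wr (P := boolGroup) (Q := P)
    (fun ω x => lift (kap ι a b (c a b)) t (s, (ω, x)))
    (fun ω x => lift (kap ι a' b' (c a' b')) t' (s, (ω, x))) hp (fun ω => ?_)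
  refine pair_eqv _ _ (kap_not _ _ _ _ _ _ _ hnot) (kap_not _ _ _ _ _ _ _ hnot') ?_
  rw [kap_or, kap_or, hp2]

theorem sp_eqv {ι : Ω → Fin (n + 2) ⊕ Bool} {P : Subgroup (Equiv.Perm Ω)}
    (c : Fin (n + 3) → Fin (n + 3) → Fin (n + 1) → Fin (n + 3))
    (hc : ∀ a b, a ≠ b → Function.Injective (c a b) ∧ (∀ j, c a b j ≠ a ∧ c a b j ≠ b) ∧
      ∀ x, x ≠ a → x ≠ b → ∃ j, c a b j = x)
    {a b a' b' : Fin (n + 3)} {t t' : Fin (n + 3) → Bool} (hab : a ≠ b) (hab' : a' ≠ b')
    (ht : Three t) (ht' : Three t') (hsp : t a = true ∧ t b = true)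
    (hsp' : t' a' = true ∧ t' b' = true) :
    Eqv (pwreath (pwreath boolGroup P) (transGroup (Fin (n + 1))))
      (lift (kap ι a b (c a b)) t) (lift (kap ι a' b' (c a' b')) t') := by
  obtain ⟨h1, h2, h3⟩ := hc a b hab
  obtain ⟨h1', h2', h3'⟩ := hc a' b' hab'
  obtain ⟨u, hu⟩ := exists_sp hab h1 h2 h3 ht hsp.1 hsp.2
  obtain ⟨u', hu'⟩ := exists_sp hab' h1' h2' h3' ht' hsp'.1 hsp'.2
  obtain ⟨σ, hσ, hσ2⟩ := exists_trans (u' - u)
  refine eqv_wr (P := pwreath boolGroup P) (Q := transGroup (Fin (n + 1)))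
    (fun s y => lift (kap ι a b (c a b)) t (s, y))
    (fun s y => lift (kap ι a' b' (c a' b')) t' (s, y)) hσ
    (fun s => Eqv.of_eq _ ?_)
  funext y
  rw [kap_sp _ _ _ _ _ _ _ hsp.1 hsp.2 u hu, kap_sp _ _ _ _ _ _ _ hsp'.1 hsp'.2 u' hu', hσ2]
  congr 1
  abel

end

/-- The abstract second half of the inductive step. -/
theorem sch_levels {ΩE : Type} [Fintype ΩE] {k : ℕ} (PE : Subgroup (Equiv.Perm ΩE))
    (hPE : Group.IsSolvable PE) (κ : Fin k → Fin k → ΩE → Fin k ⊕ Bool)
    (rep : Bool → ΩE → Bool)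
    (hrow : ∀ i j t, i < j → Three t → Eqv PE (lift (κ i j) t) (rep (t i && t j)))
    (hex : ∃ i j, i < j ∧ ∃ y l, κ i j y = Sum.inl l) : Sch k := by
  classical
  obtain ⟨q, hkq, hq⟩ := Nat.exists_infinite_primes k
  have : Fact q.Prime := ⟨hq⟩
  have hcard : Fintype.card (Fin k) ≤ Fintype.card (ZMod q) := by
    rwa [ZMod.card, Fintype.card_fin]
  obtain ⟨em⟩ := Function.Embedding.nonempty_of_card_le hcard
  -- the star level
  set lab : Fin k → ZMod q → ΩE → Fin k ⊕ Bool := fun i z =>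
    if h : ∃ j, em j = z ∧ i < j then κ i h.choose else fun y => Sum.inr (rep false y) with hlab
  have hlab1 : ∀ i j, i < j → lab i (em j) = κ i j := by
    intro i j hij
    have h : ∃ j', em j' = em j ∧ i < j' := ⟨j, rfl, hij⟩
    have h2 : h.choose = j := em.injective h.choose_spec.1
    simp only [hlab, dif_pos h, h2]
  have hlab2 : ∀ i z, (¬ ∃ j, em j = z ∧ i < j) → lab i z = fun y => Sum.inr (rep false y) := by
    intro i z h
    simp only [hlab, dif_neg h]
  set cl : Fin k → (Fin k → Bool) → ZMod q → Bool := fun i t z =>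
    decide (∃ j, em j = z ∧ i < j ∧ t i = true ∧ t j = true) with hcl
  have hstar : ∀ i t z, Three t → Eqv PE (lift (lab i z) t) (rep (cl i t z)) := by
    intro i t z ht
    by_cases h : ∃ j, em j = z ∧ i < j
    · obtain ⟨j, rfl, hij⟩ := h
      rw [hlab1 i j hij]
      have : cl i t (em j) = (t i && t j) := by
        rw [Bool.eq_iff_iff]
        simp only [hcl, decide_eq_true_iff, Bool.and_eq_true]
        constructor
        · rintro ⟨j', h1, -, h2, h3⟩
          rw [em.injective h1] at h3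
          exact ⟨h2, h3⟩
        · rintro ⟨h2, h3⟩
          exact ⟨j, rfl, hij, h2, h3⟩
      rw [this]
      exact hrow i j t hij ht
    · rw [hlab2 i z h]
      have : cl i t z = false := by
        simp only [hcl, decide_eq_false_iff_not]
        rintro ⟨j, h1, h2, -⟩
        exact h ⟨j, h1, h2⟩
      rw [this]
      exact Eqv.of_eq _ rfl
  set Ts : Fin 3 → ZMod q → Bool := fun c z =>
    if c = 2 then decide (z = 0 ∨ z = 1) else if c = 1 then decide (z = 0) else false with hTs
  set A : Fin 3 → ZMod q × ΩE → Bool := fun c x => rep (Ts c x.1) x.2 with hA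
  have haff := isSolvable_aff (ZMod q)
  have hPS := isSolvable_pwreath PE (affSubgroup (ZMod q)) hPE haff
  have hstar2 : ∀ (t : Fin k → Bool) (i₁ i₂ i₃ : Fin k), Three t → i₁ < i₂ → i₂ < i₃ →
      (∀ x, t x = true ↔ x = i₁ ∨ x = i₂ ∨ x = i₃) → ∀ i,
      Eqv (pwreath PE (affSubgroup (ZMod q))) (fun x : ZMod q × ΩE => lift (lab i x.1) t x.2)
        (A (if i = i₁ then 2 else if i = i₂ then 1 else 0)) := by
    intro t i₁ i₂ i₃ ht h12 h23 hx i
    by_cases h1 : i = i₁
    · subst h1
      obtain ⟨σ, hσ, hσ1, hσ2⟩ := exists_aff2 (em i₂) (em i₃) (0 : ZMod q) 1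
        (fun h => h23.ne (em.injective h)) zero_ne_one
      rw [if_pos rfl]
      refine eqv_cl rep (fun z => lift (lab i z) t) (fun z => rep (Ts 2 z)) (cl i t) (Ts 2)
        (fun z => hstar i t z ht) (fun z => Eqv.refl _ _) hσ ?_
      intro z
      simp only [hTs, if_true, hcl]
      rw [decide_eq_decide, ← hσ1, ← hσ2, σ.injective.eq_iff, σ.injective.eq_iff]
      constructor
      · rintro (rfl | rfl)
        · exact ⟨i₂, rfl, h12, (hx _).2 (Or.inl rfl), (hx _).2 (Or.inr (Or.inl rfl))⟩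
        · exact ⟨i₃, rfl, h12.trans h23, (hx _).2 (Or.inl rfl), (hx _).2 (Or.inr (Or.inr rfl))⟩
      · rintro ⟨j, rfl, hj, -, htj⟩
        rcases (hx j).1 htj with rfl | rfl | rfl
        · exact absurd hj (lt_irrefl _)
        · exact Or.inl rfl
        · exact Or.inr rfl
    · rw [if_neg h1]
      by_cases h2 : i = i₂
      · subst h2
        obtain ⟨σ, hσ, hσ1, hσ2⟩ := exists_aff2 (em i₃) (em i₃ + 1) (0 : ZMod q) 1
          (by simp) zero_ne_one
        rw [if_pos rfl]
        refine eqv_cl rep (fun z => lift (lab i z) t) (fun z => rep (Ts 1 z)) (cl i t) (Ts 1)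
          (fun z => hstar i t z ht) (fun z => Eqv.refl _ _) hσ ?_
        intro z
        simp only [hTs, if_true, hcl]
        rw [if_neg (by decide), decide_eq_decide, ← hσ1, σ.injective.eq_iff]
        constructor
        · rintro rfl
          exact ⟨i₃, rfl, h23, (hx _).2 (Or.inr (Or.inl rfl)), (hx _).2 (Or.inr (Or.inr rfl))⟩
        · rintro ⟨j, rfl, hj, -, htj⟩
          rcases (hx j).1 htj with rfl | rfl | rfl
          · exact absurd (hj.trans h12) (lt_irrefl _)
          · exact absurd hj (lt_irrefl _)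
          · rfl
      · rw [if_neg h2]
        refine eqv_cl rep (fun z => lift (lab i z) t) (fun z => rep (Ts 0 z)) (cl i t) (Ts 0)
          (fun z => hstar i t z ht) (fun z => Eqv.refl _ _) (σ := 1) (Subgroup.one_mem _) ?_
        intro z
        simp only [hTs, hcl]
        rw [if_neg (by decide), if_neg (by decide), eq_comm, decide_eq_false_iff_not]
        rintro ⟨j, rfl, hj, hti, htj⟩
        rcases (hx i).1 hti with h | h | rfl
        · exact h1 h
        · exact h2 h
        · rcases (hx j).1 htj with rfl | rfl | rfl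
          · exact absurd (hj.trans (h12.trans h23)) (lt_irrefl _)
          · exact absurd (hj.trans h23) (lt_irrefl _)
          · exact absurd hj (lt_irrefl _)
  -- the top level
  set Lab : ZMod q → ZMod q × ΩE → Fin k ⊕ Bool := fun z =>
    if h : ∃ i, em i = z then fun y => lab h.choose y.1 y.2
      else fun y => Sum.inr (rep false y.2) with hLab
  have hLab1 : ∀ i, Lab (em i) = fun y => lab i y.1 y.2 := by
    intro i
    have h : ∃ i', em i' = em i := ⟨i, rfl⟩
    have h2 : h.choose = i := em.injective h.choose_spec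
    simp only [hLab, dif_pos h, h2]
  have hLab2 : ∀ z, (¬ ∃ i, em i = z) → Lab z = fun y => Sum.inr (rep false y.2) := by
    intro z h
    simp only [hLab, dif_neg h]
  refine ⟨ZMod q × (ZMod q × ΩE), inferInstance, fun x => Lab x.1 x.2,
    pwreath (pwreath PE (affSubgroup (ZMod q))) (affSubgroup (ZMod q)),
    isSolvable_pwreath _ _ hPS haff, ?_, ?_⟩
  · obtain ⟨i, j, hij, y, l, hl⟩ := hex
    refine ⟨(em i, (em j, y)), l, ?_⟩
    simp only [hLab1, hlab1 i j hij, hl]
  · intro t t' ht ht'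
    obtain ⟨i₁, i₂, i₃, h12, h23, hx⟩ := ht.exists
    obtain ⟨i₁', i₂', i₃', h12', h23', hx'⟩ := ht'.exists
    obtain ⟨σ, hσ, hσ1, hσ2⟩ := exists_aff2 (em i₁) (em i₂) (em i₁') (em i₂')
        (fun h => h12.ne (em.injective h)) (fun h => h12'.ne (em.injective h))
    have main : ∀ (t : Fin k → Bool) (i₁ i₂ i₃ : Fin k), Three t → i₁ < i₂ → i₂ < i₃ →
        (∀ x, t x = true ↔ x = i₁ ∨ x = i₂ ∨ x = i₃) → ∀ z,
        Eqv (pwreath PE (affSubgroup (ZMod q))) (lift (Lab z) t)
          (A (if z = em i₁ then 2 else if z = em i₂ then 1 else 0)) := by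
      intro t i₁ i₂ i₃ ht h12 h23 hx z
      by_cases h : ∃ i, em i = z
      · obtain ⟨i, rfl⟩ := h
        rw [hLab1]
        simp only [em.injective.eq_iff]
        exact hstar2 t i₁ i₂ i₃ ht h12 h23 hx i
      · rw [hLab2 z h, if_neg (fun h' => h ⟨_, h'.symm⟩), if_neg (fun h' => h ⟨_, h'.symm⟩)]
        refine Eqv.of_eq _ ?_
        funext x
        simp only [hA, hTs]
        rw [if_neg (by decide), if_neg (by decide)]
        rfl
    refine eqv_cl A (fun z => lift (Lab z) t) (fun z => lift (Lab z) t')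
      (fun z => if z = em i₁ then 2 else if z = em i₂ then 1 else 0)
      (fun z => if z = em i₁' then 2 else if z = em i₂' then 1 else 0)
      (main t i₁ i₂ i₃ ht h12 h23 hx) (main t' i₁' i₂' i₃' ht' h12' h23' hx') hσ ?_
    intro z
    simp only [← hσ1, ← hσ2, σ.injective.eq_iff]

theorem sch_step {n : ℕ} (hn : 1 ≤ n) (h : Sch (n + 2)) : Sch (n + 3) := by
  classical
  obtain ⟨Ω, _, ι, P, hP, ⟨ω₀, i₀, hi₀⟩, heq⟩ := h
  have hc : ∀ a b : Fin (n + 3), ∃ c : Fin (n + 1) → Fin (n + 3), a ≠ b →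
      Function.Injective c ∧ (∀ j, c j ≠ a ∧ c j ≠ b) ∧
      ∀ x, x ≠ a → x ≠ b → ∃ j, c j = x := by
    intro a b
    by_cases hab : a = b
    · exact ⟨fun _ => a, fun h => absurd hab h⟩
    · obtain ⟨c, hc⟩ := exists_compl n a b hab
      exact ⟨c, fun _ => hc⟩
  choose c hc using hc
  have hsolv := isSolvable_pwreath _ _ (isSolvable_pwreath _ _ isSolvable_boolGroup hP)
    (isSolvable_transGroup (Fin (n + 1)))
  obtain ⟨T, hT1, hT2⟩ := Finset.exists_subset_card_eq
    (s := (Finset.univ : Finset (Fin (n + 3))).erase (Fin.last _)) (n := 3) (by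
      rw [Finset.card_erase_of_mem (Finset.mem_univ _), Finset.card_univ, Fintype.card_fin]
      omega)
  set t₀ : Fin (n + 3) → Bool := fun i => decide (i ∈ T) with ht₀
  have ht₀3 : Three t₀ := by
    unfold Three
    refine Eq.trans ?_ hT2
    congr 1
    ext x
    simp [ht₀]
  have hlast : t₀ (Fin.last _) = false := by
    simp only [ht₀, decide_eq_false_iff_not]
    intro h
    exact absurd (hT1 h) (by simp)
  obtain ⟨j₁, j₂, j₃, h12, h23, hx⟩ := ht₀3.exists
  have h0l : (0 : Fin (n + 3)) ≠ Fin.last (n + 2) := by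
    intro h
    have := congrArg Fin.val h
    simp at this
  refine sch_levels (pwreath (pwreath boolGroup P) (transGroup (Fin (n + 1)))) hsolv
    (fun a b => kap ι a b (c a b))
    (fun x => bif x then lift (kap ι j₁ j₂ (c j₁ j₂)) t₀
      else lift (kap ι 0 (Fin.last _) (c 0 (Fin.last _))) t₀) ?_ ?_
  · intro i j t hij ht
    by_cases hs : t i = true ∧ t j = true
    · rw [hs.1, hs.2]
      exact sp_eqv c hc hij.ne h12.ne ht ht₀3 hs
        ⟨(hx _).2 (Or.inl rfl), (hx _).2 (Or.inr (Or.inl rfl))⟩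
    · have : (t i && t j) = false := by
        rw [Bool.eq_false_iff]
        intro h
        rw [Bool.and_eq_true] at h
        exact hs h
      rw [this]
      exact ord_eqv heq c hc hij.ne h0l ht ht₀3 hs (by rw [hlast]; simp)
  · refine ⟨0, Fin.last _, ?_, (0, (ω₀, false)), ?_⟩
    · exact lt_of_le_of_ne (Fin.zero_le _) h0l
    · induction i₀ using Fin.cases with
      | zero => exact ⟨0, by simp [kap, hi₀]⟩
      | succ j => exact ⟨c 0 (Fin.last _) j, by simp [kap, hi₀]⟩

theorem sch_all (n : ℕ) : Sch (n + 3) := by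
  induction n with
  | zero => exact sch_three
  | succ n ih => exact sch_step (by omega) ih

end Pool.Agent.W_MP_955314_co
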