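import Mathlib
import Pool.Agent.W_MP_955314_co.TTrick
import Pool.Agent.W_MP_955314_co.ThreeScheme

/-!
If every point of `X` is moved into the orbit `A` by exactly three members of a finite
family of symmetries of `X`, then `X` is contained in a soluble set.
-/

set_option autoImplicit false

namespace Pool.Agent.W_MP_955314_co

theorem tTrick3 {n : ℕ} (X A B : Set (EuclideanSpace ℝ (Fin n))) (hX : X.Finite)
    (hAX : A ⊆ X) (hBX : B ⊆ X) (hXAB : X ⊆ A ∪ B)
    (G : Subgroup (EuclideanSpace ℝ (Fin n) ≃ᵢ EuclideanSpace ℝ (Fin n)))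
    (hG : Group.IsSolvable G)
    (hA : ∀ g ∈ G, ∀ a ∈ A, g a ∈ A) (hB : ∀ g ∈ G, ∀ a ∈ B, g a ∈ B)
    (htA : ∀ a ∈ A, ∀ b ∈ A, ∃ g ∈ G, g a = b) (htB : ∀ a ∈ B, ∀ b ∈ B, ∃ g ∈ G, g a = b)
    {I : Type} [Fintype I] (γ : I → EuclideanSpace ℝ (Fin n) → EuclideanSpace ℝ (Fin n))
    (hγ : ∀ i, Isometry (γ i)) (hγX : ∀ i, ∀ x ∈ X, γ i x ∈ X)
    (hcount : ∀ x ∈ X, {i | γ i x ∈ A}.ncard = 3) :
    InSolubleSet X := by
  classical
  rcases X.eq_empty_or_nonempty with rfl | ⟨x₀, hx₀⟩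
  · exact inSolubleSet_empty
  have hAfin := hX.subset hAX
  have hBfin := hX.subset hBX
  rcases B.eq_empty_or_nonempty with rfl | ⟨b₀, hb₀⟩
  · -- `X = A`
    have hXA : X = A := Set.Subset.antisymm (by simpa using hXAB) hAX
    refine inSolubleSet_of_abstract G hG A hAfin hA htA 1 one_pos id (by simp) ?_
    intro x hx
    rw [hXA] at hx
    exact hx
  obtain ⟨a₀, ha₀⟩ : A.Nonempty := by
    have h1 : {i | γ i x₀ ∈ A}.Nonempty := by
      apply Set.nonempty_of_ncard_ne_zero
      rw [hcount x₀ hx₀]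
      norm_num
    obtain ⟨i, hi⟩ := h1
    exact ⟨_, hi⟩
  have hcardI : 3 ≤ Fintype.card I := by
    rw [← hcount x₀ hx₀, ← Nat.card_eq_fintype_card, ← Set.ncard_univ]
    exact Set.ncard_le_ncard (Set.subset_univ _) (Set.toFinite _)
  obtain ⟨m, hm⟩ : ∃ m, Fintype.card I = m + 3 := ⟨Fintype.card I - 3, by omega⟩
  let e : I ≃ Fin (m + 3) := Fintype.equivFinOfCardEq hm
  obtain ⟨Ω, _, ι, P, hP, ⟨ω₀, i₀, hi₀⟩, heq⟩ := sch_all m
  set t : EuclideanSpace ℝ (Fin n) → Fin (m + 3) → Bool := fun x i =>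
    decide (γ (e.symm i) x ∈ A) with ht
  have ht3 : ∀ x ∈ X, Three (t x) := by
    intro x hx
    unfold Three
    refine Eq.trans ?_ (hcount x hx)
    have h1 : (Finset.univ.filter fun i => t x i = true) =
        (Finset.univ.filter fun i => γ i x ∈ A).map e.toEmbedding := by
      ext i
      simp [ht, Finset.mem_map_equiv]
    rw [h1, Finset.card_map, ← Set.ncard_coe_finset]
    congr 1
    ext i
    simp
  set f : Ω → EuclideanSpace ℝ (Fin n) → EuclideanSpace ℝ (Fin n) := fun ω x =>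
    Sum.elim (fun i => γ (e.symm i) x) (fun u : Bool => bif u then a₀ else b₀) (ι ω) with hf
  set O : Bool → Set (EuclideanSpace ℝ (Fin n)) := fun k => if k then A else B with hO
  set L : Finset Ω := Finset.univ.filter fun ω => (ι ω).isLeft = true with hL
  have hLpos : 0 < L.card := Finset.card_pos.2 ⟨ω₀, by simp [hL, hi₀]⟩
  refine pattern (J := Ω) (K := Bool) G hG P hP O
      ?_ ?_ ?_ (lift ι (t x₀)) f (Real.sqrt L.card) ?_ ?_ ?_
  · intro k
    cases k <;> simp [hO, hAfin, hBfin]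
  · intro k
    cases k
    · simpa [hO] using hB
    · simpa [hO] using hA
  · intro k
    cases k
    · simpa [hO] using htB
    · simpa [hO] using htA
  · exact Real.sqrt_pos.2 (by exact_mod_cast hLpos)
  · intro x y
    rw [Real.sq_sqrt (by positivity)]
    have h1 : ∀ ω, dist (f ω x) (f ω y) ^ 2 =
        if (ι ω).isLeft = true then dist x y ^ 2 else 0 := by
      intro ω
      rcases h : ι ω with i | u
      · simp only [hf, h, Sum.elim_inl, (hγ _).dist_eq, Sum.isLeft_inl, if_true]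
      · simp [hf, h]
    rw [Finset.sum_congr rfl fun ω _ => h1 ω, ← Finset.sum_filter, Finset.sum_const,
      nsmul_eq_mul]
  · intro x hx
    obtain ⟨σ, hσ, hσ2⟩ := heq (t x₀) (t x) (ht3 x₀ hx₀) (ht3 x hx)
    refine ⟨σ, hσ, fun ω => ?_⟩
    rw [← hσ2]
    have h1 : σ (σ⁻¹ ω) = ω := σ.apply_symm_apply ω
    rw [h1]
    rcases h : ι ω with i | u
    · rw [lift_inl h]
      by_cases hi : γ (e.symm i) x ∈ A
      · simp [hf, h, hO, ht, hi]
      · simp only [hf, h, hO, ht, hi, decide_false, Sum.elim_inl]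
        rcases hXAB (hγX (e.symm i) x hx) with h2 | h2
        · exact absurd h2 hi
        · simpa using h2
    · rw [lift_inr h]
      cases u
      · simpa [hf, h, hO] using hb₀
      · simpa [hf, h, hO] using ha₀

end Pool.Agent.W_MP_955314_co
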